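import Mathlib

set_option autoImplicit false

namespace Pool.Agent.Helper60.Hit

/-- the `i`-th entry of the weight vector of an exponent vector -/
def wt {ι : Type*} [Fintype ι] (e : ι → ℕ) (i : ℕ) : ℕ := ∑ j, e j / 2 ^ i % 2

/-- left lexicographic order on weight vectors -/
def LexLT (a b : ℕ → ℕ) : Prop := ∃ i, (∀ l < i, a l = b l) ∧ a i < b i

theorem LexLT.trans {a b c : ℕ → ℕ} (h1 : LexLT a b) (h2 : LexLT b c) : LexLT a c := by
  obtain ⟨i, hi, hi'⟩ := h1
  obtain ⟨j, hj, hj'⟩ := h2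
  rcases lt_trichotomy i j with h | h | h
  · refine ⟨i, fun l hl => (hi l hl).trans (hj l (hl.trans h)), ?_⟩
    rw [← hj i h]; exact hi'
  · subst h
    exact ⟨i, fun l hl => (hi l hl).trans (hj l hl), hi'.trans hj'⟩
  · refine ⟨j, fun l hl => (hi l (hl.trans h)).trans (hj l hl), ?_⟩
    rw [hi j h]; exact hj'

/-- lexicographically at most -/
def LexLE (a b : ℕ → ℕ) : Prop := a = b ∨ LexLT a b

theorem LexLE.trans_lt {a b c : ℕ → ℕ} (h1 : LexLE a b) (h2 : LexLT b c) : LexLT a c := by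
  rcases h1 with h | h
  · rw [h]; exact h2
  · exact h.trans h2

theorem LexLT.trans_le {a b c : ℕ → ℕ} (h1 : LexLT a b) (h2 : LexLE b c) : LexLT a c := by
  rcases h2 with h | h
  · rw [← h]; exact h1
  · exact h1.trans h

theorem div_two_pow_add {x y s : ℕ} (h : x % 2 ^ s + y % 2 ^ s < 2 ^ s) :
    (x + y) / 2 ^ s = x / 2 ^ s + y / 2 ^ s := by
  rw [Nat.add_div (by positivity)]
  rw [if_neg (by omega)]
  simp

theorem no_carry {x y : ℕ} (s : ℕ)
    (h : ∀ s' < s, ¬ (x / 2 ^ s' % 2 = 1 ∧ y / 2 ^ s' % 2 = 1)) :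
    x % 2 ^ s + y % 2 ^ s < 2 ^ s := by
  induction s with
  | zero => simp [Nat.mod_one]
  | succ s ih =>
    have h1 := ih (fun s' hs' => h s' (by omega))
    have h2 := h s (by omega)
    rw [Nat.mod_pow_succ, Nat.mod_pow_succ, pow_succ]
    have hx : x / 2 ^ s % 2 < 2 := Nat.mod_lt _ (by norm_num)
    have hy : y / 2 ^ s % 2 < 2 := Nat.mod_lt _ (by norm_num)
    generalize x / 2 ^ s % 2 = p at *
    generalize y / 2 ^ s % 2 = q at *
    have hp : p = 0 ∨ p = 1 := by omega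
    have hq : q = 0 ∨ q = 1 := by omega
    rcases hp with rfl | rfl <;> rcases hq with rfl | rfl <;> simp at h2 ⊢ <;> omega

theorem bit_add_of_no_carry {x y s : ℕ}
    (h : ∀ s' < s, ¬ (x / 2 ^ s' % 2 = 1 ∧ y / 2 ^ s' % 2 = 1)) :
    (x + y) / 2 ^ s % 2 = (x / 2 ^ s % 2 + y / 2 ^ s % 2) % 2 := by
  rw [div_two_pow_add (no_carry s h)]
  omega

/-- weight vectors do not increase under addition of exponent vectors;
they decrease strictly as soon as there is a common bit. -/
theorem wt_add_lt {ι : Type*} [Fintype ι] {a b : ι → ℕ} {i : ι} {s : ℕ}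
    (h1 : a i / 2 ^ s % 2 = 1) (h2 : b i / 2 ^ s % 2 = 1) :
    LexLT (wt (a + b)) (wt a + wt b) := by
  classical
  have hex : ∃ s, ∃ i, a i / 2 ^ s % 2 = 1 ∧ b i / 2 ^ s % 2 = 1 := ⟨s, i, h1, h2⟩
  let s0 := Nat.find hex
  have hs0 : ∃ i, a i / 2 ^ s0 % 2 = 1 ∧ b i / 2 ^ s0 % 2 = 1 := Nat.find_spec hex
  have hmin : ∀ s' < s0, ∀ i, ¬ (a i / 2 ^ s' % 2 = 1 ∧ b i / 2 ^ s' % 2 = 1) := by
    intro s' hs' i hi
    exact Nat.find_min hex hs' ⟨i, hi⟩
  refine ⟨s0, ?_, ?_⟩
  · intro l hl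
    simp only [wt, Pi.add_apply]
    rw [← Finset.sum_add_distrib]
    refine Finset.sum_congr rfl fun j _ => ?_
    rw [bit_add_of_no_carry (fun s' hs' => hmin s' (hs'.trans hl) j)]
    have := hmin l hl j
    omega
  · simp only [wt, Pi.add_apply]
    rw [← Finset.sum_add_distrib]
    obtain ⟨i0, hi0⟩ := hs0
    refine Finset.sum_lt_sum (fun j _ => ?_) ⟨i0, Finset.mem_univ _, ?_⟩
    · rw [bit_add_of_no_carry (fun s' hs' => hmin s' hs' j)]
      exact Nat.mod_le _ _
    · rw [bit_add_of_no_carry (fun s' hs' => hmin s' hs' i0)]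
      rw [hi0.1, hi0.2]; norm_num

theorem wt_add_eq {ι : Type*} [Fintype ι] {a b : ι → ℕ}
    (h : ∀ i s, ¬ (a i / 2 ^ s % 2 = 1 ∧ b i / 2 ^ s % 2 = 1)) :
    wt (a + b) = wt a + wt b := by
  funext l
  simp only [wt, Pi.add_apply]
  rw [← Finset.sum_add_distrib]
  refine Finset.sum_congr rfl fun j _ => ?_
  rw [bit_add_of_no_carry (fun s' _ => h j s')]
  have := h j l
  omega

theorem wt_add_le {ι : Type*} [Fintype ι] (a b : ι → ℕ) :
    LexLE (wt (a + b)) (wt a + wt b) := by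
  by_cases h : ∀ i s, ¬ (a i / 2 ^ s % 2 = 1 ∧ b i / 2 ^ s % 2 = 1)
  · exact Or.inl (wt_add_eq h)
  · push Not at h
    obtain ⟨i, s, h1, h2⟩ := h
    exact Or.inr (wt_add_lt h1 h2)

/-- `a, b < 2^R ≤ a + b` forces a common bit. -/
theorem common_bit {x y R : ℕ} (hx : x < 2 ^ R) (hy : y < 2 ^ R) (h : 2 ^ R ≤ x + y) :
    ∃ s, x / 2 ^ s % 2 = 1 ∧ y / 2 ^ s % 2 = 1 := by
  by_contra hc
  push Not at hc
  have := no_carry (x := x) (y := y) R (fun s' _ hh => hc s' hh.1 hh.2)
  rw [Nat.mod_eq_of_lt hx, Nat.mod_eq_of_lt hy] at this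
  omega

/-! ### counting bits -/

theorem le_of_popcount (r a : ℕ) (h : r ≤ ∑ s ∈ Finset.range r, a / 2 ^ s % 2) :
    2 ^ r - 1 ≤ a := by
  induction r generalizing a with
  | zero => simp
  | succ r ih =>
    rw [Finset.sum_range_succ'] at h
    have h1 : ∑ k ∈ Finset.range r, a / 2 ^ (k + 1) % 2 =
        ∑ k ∈ Finset.range r, a / 2 / 2 ^ k % 2 := by
      refine Finset.sum_congr rfl fun k _ => ?_
      rw [pow_succ', Nat.div_div_eq_div_mul]
    have h2 : ∑ k ∈ Finset.range r, a / 2 / 2 ^ k % 2 ≤ r := by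
      calc _ ≤ ∑ k ∈ Finset.range r, 1 := Finset.sum_le_sum (fun k _ => by omega)
        _ = r := by simp
    rw [h1] at h
    simp only [pow_zero, Nat.div_one] at h
    have h3 := ih (a / 2) (by omega)
    rw [pow_succ]
    have := Nat.one_le_two_pow (n := r)
    omega

theorem one_le_popcount (r x : ℕ) (h0 : x ≠ 0) (h : x < 2 ^ r) :
    1 ≤ ∑ s ∈ Finset.range r, x / 2 ^ s % 2 := by
  induction r generalizing x with
  | zero => simp at h; omega
  | succ r ih =>
    rw [Finset.sum_range_succ']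
    have h1 : ∑ k ∈ Finset.range r, x / 2 ^ (k + 1) % 2 =
        ∑ k ∈ Finset.range r, x / 2 / 2 ^ k % 2 := by
      refine Finset.sum_congr rfl fun k _ => ?_
      rw [pow_succ', Nat.div_div_eq_div_mul]
    rw [h1]
    simp only [pow_zero, Nat.div_one]
    by_cases h2 : x / 2 = 0
    · have : x = 1 := by omega
      subst this; norm_num
    · have := ih (x / 2) h2 (by rw [pow_succ] at h; omega)
      omega

/-- an exponent vector with support `M` whose bits are disjoint with union the bits of `a`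
has `2 ^ |M| - 1 ≤ a` -/
theorem card_le_of_good {ι : Type*} [Fintype ι] {M : Finset ι} {c : ι → ℕ} {a : ℕ}
    (hsum : ∑ i, c i = a)
    (hsupp : ∀ i ∈ M, c i ≠ 0) (hbits : ∀ s, wt c s = a / 2 ^ s % 2) :
    2 ^ M.card - 1 ≤ a := by
  by_contra hlt
  push Not at hlt
  have hM : a < 2 ^ M.card := by omega
  have := le_of_popcount M.card a ?_
  · omega
  · calc M.card = ∑ i ∈ M, 1 := by simp
      _ ≤ ∑ i ∈ M, ∑ s ∈ Finset.range M.card, c i / 2 ^ s % 2 := by
          refine Finset.sum_le_sum fun i hi => one_le_popcount _ _ (hsupp i hi) ?_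
          have : c i ≤ ∑ i, c i := Finset.single_le_sum (f := c) (fun _ _ => Nat.zero_le _) (Finset.mem_univ i)
          omega
      _ ≤ ∑ i, ∑ s ∈ Finset.range M.card, c i / 2 ^ s % 2 :=
          Finset.sum_le_sum_of_subset_of_nonneg (Finset.subset_univ _) (fun _ _ _ => Nat.zero_le _)
      _ = ∑ s ∈ Finset.range M.card, a / 2 ^ s % 2 := by
          rw [Finset.sum_comm]
          refine Finset.sum_congr rfl fun s _ => ?_
          rw [← hbits s]; rfl

theorem lucas_bits (a k : ℕ) (h : (a.choose k) % 2 = 1) :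
    k ≤ a ∧ ∀ s, a / 2 ^ s % 2 = k / 2 ^ s % 2 + (a - k) / 2 ^ s % 2 := by
  induction a using Nat.strong_induction_on generalizing k with
  | _ a ih =>
  rcases Nat.eq_zero_or_pos a with ha | ha
  · subst ha
    rcases Nat.eq_zero_or_pos k with hk | hk
    · subst hk; simp
    · rw [Nat.choose_eq_zero_of_lt hk] at h; simp at h
  · have hle : k ≤ a := by
      by_contra hc
      rw [Nat.choose_eq_zero_of_lt (by omega)] at h; simp at h
    have hl := Choose.choose_modEq_choose_mod_mul_choose_div_nat (n := a) (k := k) (p := 2)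
    rw [Nat.ModEq, h] at hl
    have h2 : ((a % 2).choose (k % 2)) % 2 = 1 ∧ ((a / 2).choose (k / 2)) % 2 = 1 := by
      have := Nat.mul_mod ((a % 2).choose (k % 2)) ((a / 2).choose (k / 2)) 2
      rw [← hl] at this
      have e1 : (a % 2).choose (k % 2) % 2 < 2 := Nat.mod_lt _ (by norm_num)
      have e2 : (a / 2).choose (k / 2) % 2 < 2 := Nat.mod_lt _ (by norm_num)
      generalize (a % 2).choose (k % 2) % 2 = p at *
      generalize (a / 2).choose (k / 2) % 2 = q at *
      have hp : p = 0 ∨ p = 1 := by omega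
      have hq : q = 0 ∨ q = 1 := by omega
      rcases hp with rfl | rfl <;> rcases hq with rfl | rfl <;> simp at this ⊢
    have h3 : k % 2 ≤ a % 2 := by
      by_contra hc
      rw [Nat.choose_eq_zero_of_lt (by omega)] at h2; simp at h2
    have h4 := ih (a / 2) (by omega) (k / 2) h2.2
    refine ⟨hle, fun s => ?_⟩
    rcases Nat.eq_zero_or_pos s with hs | hs
    · subst hs; simp only [pow_zero, Nat.div_one]; omega
    · obtain ⟨s, rfl⟩ : ∃ s', s = s' + 1 := ⟨s - 1, by omega⟩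
      have h5 := h4.2 s
      have h6 : (a - k) / 2 = a / 2 - k / 2 := by omega
      rw [pow_succ', ← Nat.div_div_eq_div_mul, ← Nat.div_div_eq_div_mul, ← Nat.div_div_eq_div_mul,
        h6]
      exact h5

theorem choose_two_pow_sub_one (R k : ℕ) (hk : k ≤ 2 ^ R - 1) :
    ((2 ^ R - 1).choose k) % 2 = 1 := by
  induction k with
  | zero => simp
  | succ k ih =>
    have h1 := ih (by omega)
    have hR : 1 ≤ 2 ^ R := Nat.one_le_two_pow
    have h2 : (2 ^ R).choose (k + 1) = (2 ^ R - 1).choose k + (2 ^ R - 1).choose (k + 1) := by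
      conv_lhs => rw [show 2 ^ R = (2 ^ R - 1) + 1 by omega]
      rw [Nat.choose_succ_succ]
    have h3 : 2 ∣ (2 ^ R).choose (k + 1) := by
      apply Nat.Prime.dvd_choose_pow Nat.prime_two <;> omega
    omega

end Pool.Agent.Helper60.Hit
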