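import Pool.Agent.Helper60.Hit.Core

set_option autoImplicit false

namespace Pool.Agent.Helper60.Hit

open MvPolynomial

variable {n : ℕ}

/-! ### leaving out a variable -/

theorem adm_insert (p : Fin (n + 1)) {e0 : Fin (n + 1) → ℕ} {t : Fin n → ℕ} (h0 : e0 p = 0)
    (ht : ∀ j, e0 (p.succAbove j) = t j) (h : Adm t) : Adm e0 := by
  intro hin
  apply h
  rw [Submodule.mem_sup] at hin
  obtain ⟨g, hg, f, hf, hgf⟩ := hin
  let π : MvPolynomial (Fin (n + 1)) (ZMod 2) →ₐ[ZMod 2] MvPolynomial (Fin n) (ZMod 2) :=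
    aeval (Fin.insertNth (α := fun _ => MvPolynomial (Fin n) (ZMod 2)) p 0 (fun j => X j))
  have hπ : ∀ y : Fin (n + 1) → ℕ, π (mono y) = 0 ^ (y p) * mono (fun j => y (p.succAbove j)) := by
    intro y
    show aeval _ (mono y) = _
    rw [aeval_mono, Fin.prod_univ_succAbove _ p, Fin.insertNth_apply_same, mono_eq_prod]
    simp only [Fin.insertNth_apply_succAbove]
  have h1 : π g ∈ hits n := by
    refine aeval_hits _ (fun i => ?_) hg
    rcases Fin.eq_self_or_eq_succAbove p i with rfl | ⟨j, rfl⟩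
    · rw [Fin.insertNth_apply_same]; exact lin_zero
    · rw [Fin.insertNth_apply_succAbove]; exact lin_X _
  have hwt : ∀ y : Fin (n + 1) → ℕ, y p = 0 → wt (fun j => y (p.succAbove j)) = wt y := by
    intro y hy
    funext k
    unfold wt
    rw [Fin.sum_univ_succAbove (fun j => y j / 2 ^ k % 2) p, hy]
    simp
  have h2 : π f ∈ msp (fun z => MonLT z t) := by
    clear hgf
    induction hf using Submodule.span_induction with
    | zero => rw [map_zero]; exact Submodule.zero_mem _
    | add x y _ _ hx hy => rw [map_add]; exact Submodule.add_mem _ hx hy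
    | smul a x _ hx => rw [map_smul]; exact Submodule.smul_mem _ _ hx
    | mem x hx =>
      obtain ⟨y, rfl, hsum, hy⟩ := hx
      rw [hπ]
      rcases Nat.eq_zero_or_pos (y p) with hyp | hyp
      · rw [hyp, pow_zero, one_mul]
        apply mono_mem_msp
        have hte : t = fun j => e0 (p.succAbove j) := by funext j; rw [ht]
        refine ⟨?_, ?_⟩
        · rw [Fin.sum_univ_succAbove (fun j => y j) p, Fin.sum_univ_succAbove (fun j => e0 j) p,
            hyp, h0, zero_add, zero_add] at hsum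
          rw [hsum]
          exact Finset.sum_congr rfl fun j _ => ht j
        · rw [hwt y hyp, hte, hwt e0 h0]
          rcases hy with hy | ⟨hy1, i, hi, hi'⟩
          · exact Or.inl hy
          · refine Or.inr ⟨hy1, ?_⟩
            rcases Fin.eq_self_or_eq_succAbove p i with rfl | ⟨j, rfl⟩
            · rw [hyp, h0] at hi'; exact absurd hi' (lt_irrefl _)
            · refine ⟨j, fun l hl => hi _ ?_, hi'⟩
              exact (Fin.strictMono_succAbove p) hl
      · rw [zero_pow (by omega), zero_mul]; exact Submodule.zero_mem _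
  have h3 : mono t = π g + π f := by
    rw [← map_add, hgf, hπ, h0, pow_zero, one_mul]
    congr 1
    funext j; rw [ht]
  rw [h3]
  exact Submodule.add_mem_sup h1 h2

/-! ### more on bits -/

theorem two_pow_bit (b s : ℕ) : 2 ^ b / 2 ^ s % 2 = if s = b then 1 else 0 := by
  rcases lt_trichotomy s b with h | h | h
  · rw [if_neg (ne_of_lt h), Nat.pow_div (le_of_lt h) (by norm_num)]
    obtain ⟨c, hc⟩ : ∃ c, b - s = c + 1 := ⟨b - s - 1, by omega⟩
    rw [hc, pow_succ]; omega
  · rw [if_pos h, h, Nat.div_self (by positivity)]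
  · rw [if_neg (ne_of_gt h), Nat.div_eq_of_lt (Nat.pow_lt_pow_right (by norm_num) h)]

theorem sum_two_pow_bit (S : Finset ℕ) (s : ℕ) :
    (∑ b ∈ S, 2 ^ b) / 2 ^ s % 2 = if s ∈ S then 1 else 0 := by
  induction S using Finset.induction_on generalizing s with
  | empty => simp
  | insert b S hb ih =>
    rw [Finset.sum_insert hb, bit_add_of_no_carry, two_pow_bit, ih]
    · by_cases h1 : s = b
      · subst h1; simp [hb]
      · by_cases h2 : s ∈ S <;> simp [h1, h2]
    · rintro s' _ ⟨h1, h2⟩
      rw [two_pow_bit] at h1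
      rw [ih] at h2
      by_cases h3 : s' = b
      · subst h3; simp [hb] at h2
      · simp [h3] at h1

theorem remove_bits (S : Finset ℕ) (x y : ℕ) (hx : ∀ b ∈ S, x / 2 ^ b % 2 = 1)
    (hy : y + ∑ b ∈ S, 2 ^ b = x) (s : ℕ) :
    x / 2 ^ s % 2 = y / 2 ^ s % 2 + if s ∈ S then 1 else 0 := by
  induction S using Finset.induction_on generalizing x s with
  | empty => simp at hy; simp [hy]
  | insert b S hb ih =>
    rw [Finset.sum_insert hb] at hy
    have hxb := hx b (Finset.mem_insert_self _ _)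
    -- x' = x - 2 ^ b
    obtain ⟨x', hx'⟩ : ∃ x', x' = y + ∑ b ∈ S, 2 ^ b := ⟨_, rfl⟩
    have hxx : x' + 2 ^ b = x := by omega
    have hb0 : x' / 2 ^ b % 2 = 0 := by
      rw [← hxx, Nat.add_div_right _ (by positivity)] at hxb
      omega
    have hnc : ∀ s', ¬ (x' / 2 ^ s' % 2 = 1 ∧ 2 ^ b / 2 ^ s' % 2 = 1) := by
      rintro s' ⟨h1, h2⟩
      rw [two_pow_bit] at h2
      by_cases h3 : s' = b
      · subst h3; omega
      · simp [h3] at h2
    have hbits : ∀ s', x / 2 ^ s' % 2 = x' / 2 ^ s' % 2 + if s' = b then 1 else 0 := by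
      intro s'
      rw [← hxx, bit_add_of_no_carry (fun s'' _ => hnc s''), two_pow_bit]
      by_cases h3 : s' = b
      · subst h3; simp [hb0]
      · simp [h3]
    have h4 := ih x' ?_ hx'.symm s
    · rw [hbits s, h4]
      by_cases h5 : s = b
      · subst h5; simp [hb]
      · by_cases h6 : s ∈ S <;> simp [h5, h6]
    · intro b' hb'
      have h6 := hx b' (Finset.mem_insert_of_mem hb')
      rw [hbits b', if_neg (fun h : b' = b => hb (h ▸ hb')), add_zero] at h6
      exact h6

theorem no_common (S : Finset ℕ) (x y : ℕ) (hx : ∀ b ∈ S, x / 2 ^ b % 2 = 1)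
    (hy : y + ∑ b ∈ S, 2 ^ b = x) (s : ℕ) :
    ¬ ((∑ b ∈ S, 2 ^ b) / 2 ^ s % 2 = 1 ∧ y / 2 ^ s % 2 = 1) := by
  rintro ⟨h1, h2⟩
  have h3 := remove_bits S x y hx hy s
  rw [sum_two_pow_bit] at h1
  by_cases h4 : s ∈ S
  · rw [if_pos h4, h2] at h3
    have : x / 2 ^ s % 2 < 2 := Nat.mod_lt _ (by norm_num)
    omega
  · simp [h4] at h1

theorem sum_range_two_pow (r u : ℕ) (hu : u < r) :
    ∑ m ∈ Finset.range (u + 1), 2 ^ (r - 1 - m) = 2 ^ r - 2 ^ (r - 1 - u) := by
  induction u with
  | zero =>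
    simp only [zero_add, Finset.sum_range_one, Nat.sub_zero]
    obtain ⟨c, rfl⟩ : ∃ c, r = c + 1 := ⟨r - 1, by omega⟩
    rw [Nat.add_sub_cancel, pow_succ]; omega
  | succ u ih =>
    rw [Finset.sum_range_succ, ih (by omega)]
    obtain ⟨c, hc⟩ : ∃ c, r - 1 - u = c + 1 := ⟨r - 1 - u - 1, by omega⟩
    have hc' : r - 1 - (u + 1) = c := by omega
    rw [hc, hc']
    have h1 : 2 ^ (c + 1) ≤ 2 ^ r := Nat.pow_le_pow_right (by norm_num) (by omega)
    rw [pow_succ] at h1 ⊢
    omega

theorem sum_image_two_pow (r u : ℕ) (hu : u < r) :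
    ∑ b ∈ (Finset.range (u + 1)).image (fun m => r - 1 - m), 2 ^ b =
      ∑ m ∈ Finset.range (u + 1), 2 ^ (r - 1 - m) := by
  rw [Finset.sum_image]
  intro x hx y hy hxy
  simp only [Finset.coe_range, Set.mem_Iio] at hx hy
  simp only at hxy
  omega

/-! ### the main theorem, with our definitions -/

theorem main_adm (p : Fin (n + 1)) (e0 : Fin (n + 1) → ℕ) (h0 : e0 p = 0)
    (r : ℕ) (κ : Fin r → Fin (n + 1)) (u : Fin r) (e : Fin (n + 1) → ℕ)
    (hκ : StrictMono κ) (hpκ : ∀ m, p < κ m)
    (hspike : ∀ i m, p < i → m < u → i ≤ κ m → e0 i = 2 ^ r - 1)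
    (hbu : ∀ m : Fin r, m ≤ u → e0 (κ u) / 2 ^ (r - 1 - (m : ℕ)) % 2 = 1)
    (hbm : ∀ m : Fin r, u < m → e0 (κ m) / 2 ^ (r - 1 - (m : ℕ)) % 2 = 1)
    (hep : e p = 2 ^ r - 1)
    (heu : e (κ u) + ∑ m ∈ Finset.range ((u : ℕ) + 1), 2 ^ (r - 1 - m) = e0 (κ u))
    (hem : ∀ m : Fin r, u < m → e (κ m) + 2 ^ (r - 1 - (m : ℕ)) = e0 (κ m))
    (heq : ∀ i, i ≠ p → (∀ m, u ≤ m → i ≠ κ m) → e i = e0 i) :
    (Adm e0 → Adm e) ∧ wt e = wt e0 ∧ ∑ i, e i = ∑ i, e0 i := by
  classical
  have hκinj : Function.Injective κ := hκ.injective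
  -- the data
  let s : Finset (Fin (n + 1)) := (Finset.Ioi u).image κ
  have hscard : s.card = r - 1 - (u : ℕ) := by
    show ((Finset.Ioi u).image κ).card = _
    rw [Finset.card_image_of_injective _ hκinj, Fin.card_Ioi]
  have hu := u.2
  have ha : ∀ x ∈ s, κ u < x := by
    intro x hx
    obtain ⟨m, hm, rfl⟩ := Finset.mem_image.mp hx
    exact hκ (Finset.mem_Ioi.mp hm)
  have hcst : ∀ m : Fin r, u < m → cst s (κ m) = 2 ^ (r - 1 - (m : ℕ)) := by
    intro m hm
    have hmem : κ m ∈ s := Finset.mem_image.mpr ⟨m, Finset.mem_Ioi.mpr hm, rfl⟩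
    unfold cst
    rw [if_pos hmem]
    congr 1
    have : s.filter (fun x => κ m < x) = (Finset.Ioi m).image κ := by
      ext x
      rw [Finset.mem_filter, Finset.mem_image, Finset.mem_image]
      constructor
      · rintro ⟨⟨m', hm', rfl⟩, hlt⟩
        exact ⟨m', Finset.mem_Ioi.mpr (hκ.lt_iff_lt.mp hlt), rfl⟩
      · rintro ⟨m', hm', rfl⟩
        exact ⟨⟨m', Finset.mem_Ioi.mpr (hm.trans (Finset.mem_Ioi.mp hm')), rfl⟩,
          hκ (Finset.mem_Ioi.mp hm')⟩
    rw [this, Finset.card_image_of_injective _ hκinj, Fin.card_Ioi]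
  have hcst0 : ∀ i, i ∉ s → cst s i = 0 := by
    intro i hi; unfold cst; rw [if_neg hi]
  have hus : κ u ∉ s := fun h => lt_irrefl _ (ha _ h)
  -- e0 is the target vector
  have he0f : e0f r (κ u) s p e = e0 := by
    funext i
    unfold e0f cstar
    rw [Pi.add_apply, Pi.add_apply]
    by_cases hip : i = p
    · subst hip
      have h1 : i ≠ κ u := ne_of_lt (hpκ u)
      have h2 : i ∉ s := by
        intro h
        obtain ⟨m, -, hm⟩ := Finset.mem_image.mp h
        exact absurd (hm ▸ hpκ m) (lt_irrefl _)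
      rw [Pi.single_eq_of_ne h1, hcst0 i h2, Function.update_self, h0]
    · rw [Function.update_of_ne hip]
      by_cases hiu : i = κ u
      · subst hiu
        rw [Pi.single_eq_same, hcst0 _ hus, hscard, ← sum_range_two_pow r u hu, ← heu]
        ring
      · rw [Pi.single_eq_of_ne hiu, zero_add]
        by_cases his : i ∈ s
        · obtain ⟨m, hm, rfl⟩ := Finset.mem_image.mp his
          have hm' := Finset.mem_Ioi.mp hm
          rw [hcst m hm', ← hem m hm']; ring
        · rw [hcst0 i his, zero_add]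
          apply heq i hip
          intro m hm hc
          rcases eq_or_lt_of_le hm with h | h
          · exact hiu (by rw [hc, h])
          · exact his (Finset.mem_image.mpr ⟨m, Finset.mem_Ioi.mpr h, hc.symm⟩)
  have hGood := (Cr_lead ha (R := r) (by omega : s.card < r)).1
  -- the weight vector
  have hwt : wt (e0f r (κ u) s p e) = wt e := by
    unfold e0f
    rw [wt_add_eq]
    · funext k
      have h1 : wt (cstar r (κ u) s) k = (2 ^ r - 1) / 2 ^ k % 2 := hGood.2.2 k
      rw [Pi.add_apply, h1]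
      unfold wt
      rw [Fin.sum_univ_succAbove (fun j => Function.update e p 0 j / 2 ^ k % 2) p,
        Fin.sum_univ_succAbove (fun j => e j / 2 ^ k % 2) p, Function.update_self, hep]
      simp
    · intro i k
      unfold cstar
      rw [Pi.add_apply]
      by_cases hip : i = p
      · subst hip
        rw [Function.update_self]; simp
      · rw [Function.update_of_ne hip]
        by_cases hiu : i = κ u
        · subst hiu
          rw [Pi.single_eq_same, hcst0 _ hus, hscard, ← sum_range_two_pow r u hu, add_zero,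
            ← sum_image_two_pow r u hu]
          refine no_common _ (e0 (κ u)) _ ?_ ?_ k
          · intro b hb
            obtain ⟨m, hm, rfl⟩ := Finset.mem_image.mp hb
            rw [Finset.mem_range] at hm
            exact hbu ⟨m, by omega⟩ (by rw [Fin.le_def]; show m ≤ u; omega)
          · rw [sum_image_two_pow r u hu, ← heu]
        · rw [Pi.single_eq_of_ne hiu, zero_add]
          by_cases his : i ∈ s
          · obtain ⟨m, hm, rfl⟩ := Finset.mem_image.mp his
            have hm' := Finset.mem_Ioi.mp hm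
            rw [hcst m hm']
            have := no_common {r - 1 - (m : ℕ)} (e0 (κ m)) (e (κ m)) ?_ ?_ k
            · rw [Finset.sum_singleton] at this; exact this
            · intro b hb
              rw [Finset.mem_singleton] at hb
              rw [hb]; exact hbm m hm'
            · rw [Finset.sum_singleton]; exact hem m hm'
          · rw [hcst0 i his]; simp
  -- the last block position
  obtain ⟨P, hpP, hPu, hPi, hPκ⟩ : ∃ P : Fin (n + 1), p ≤ P ∧ P < κ u ∧
      (∀ i, p < i → i ≤ P → ∃ m, m < u ∧ i ≤ κ m) ∧ (∀ m, m < u → κ m ≤ P) := by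
    by_cases hu0 : (u : ℕ) = 0
    · refine ⟨p, le_rfl, hpκ u, fun i h1 h2 => absurd (lt_of_lt_of_le h1 h2) (lt_irrefl _), ?_⟩
      intro m hm
      rw [Fin.lt_def] at hm; omega
    · have hlt : (⟨(u : ℕ) - 1, by omega⟩ : Fin r) < u := by
        rw [Fin.lt_def]; show (u : ℕ) - 1 < u; omega
      refine ⟨κ ⟨(u : ℕ) - 1, by omega⟩, le_of_lt (hpκ _), hκ hlt, fun i _ h2 => ⟨_, hlt, h2⟩, ?_⟩
      intro m hm
      apply hκ.monotone
      rw [Fin.le_def]; rw [Fin.lt_def] at hm; show (m : ℕ) ≤ (u : ℕ) - 1; omega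
  have H : Hyp p P (κ u) s r e := by
    refine ⟨hpP, hPu, ha, by omega, ?_, ?_, hwt⟩
    · have hsub : (Finset.univ : Finset (Fin r)).image κ ⊆ Mw P (κ u) s p := by
        intro x hx
        obtain ⟨m, -, rfl⟩ := Finset.mem_image.mp hx
        unfold Mw
        rw [Finset.mem_union, Finset.mem_Ioc, Finset.mem_insert]
        rcases lt_trichotomy m u with h | h | h
        · exact Or.inl ⟨hpκ m, hPκ m h⟩
        · exact Or.inr (Or.inl (by rw [h]))
        · exact Or.inr (Or.inr (Finset.mem_image.mpr ⟨m, Finset.mem_Ioi.mpr h, rfl⟩))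
      have := Finset.card_le_card hsub
      rw [Finset.card_image_of_injective _ hκinj, Finset.card_univ, Fintype.card_fin] at this
      exact this
    · intro i h1 h2
      rcases eq_or_lt_of_le h1 with h | h
      · rw [← h, hep]
      · obtain ⟨m, hm, him⟩ := hPi i h h2
        rw [heq i (ne_of_gt h) ?_, hspike i m h hm him]
        intro m' hm' hc
        have : κ m < κ m' := hκ (lt_of_lt_of_le hm hm')
        rw [← hc] at this
        exact absurd (lt_of_lt_of_le this him) (lt_irrefl _)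
  refine ⟨fun hadm => H.adm (by rw [he0f]; exact hadm), ?_, ?_⟩
  · rw [← hwt, he0f]
  · rw [← H.sum_e0, he0f]

end Pool.Agent.Helper60.Hit
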