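import Pool.Agent.Helper60.Hit.Op

set_option autoImplicit false

namespace Pool.Agent.Helper60.Hit

open MvPolynomial

variable {n : ℕ} {p P a : Fin (n + 1)} {s : Finset (Fin (n + 1))} {r : ℕ} {e : Fin (n + 1) → ℕ}

theorem Mw_succ {w w' : Fin (n + 1)} (hww : (w : ℕ) + 1 = w') (hwP : w' ≤ P) :
    Mw P a s w = insert w' (Mw P a s w') := by
  unfold Mw
  ext x
  simp only [Finset.mem_union, Finset.mem_Ioc, Finset.mem_insert]
  rw [Fin.lt_def, Fin.le_def, Fin.lt_def]
  rw [Fin.le_def] at hwP
  constructor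
  · rintro (⟨h1, h2⟩ | h)
    · by_cases h3 : x = w'
      · exact Or.inl h3
      · have : (x : ℕ) ≠ w' := fun h => h3 (Fin.ext h)
        exact Or.inr (Or.inl ⟨by omega, h2⟩)
    · exact Or.inr (Or.inr h)
  · rintro (h | ⟨h1, h2⟩ | h)
    · subst h; exact Or.inl ⟨by omega, hwP⟩
    · exact Or.inl ⟨by omega, h2⟩
    · exact Or.inr h

theorem Hyp.notMem_Mw (H : Hyp p P a s r e) {w : Fin (n + 1)} (hwP : w ≤ P) :
    w ∉ Mw P a s w := by
  have hwa := lt_of_le_of_lt hwP H.hPa
  unfold Mw
  rw [Finset.mem_union, Finset.mem_Ioc, Finset.mem_insert]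
  rintro (⟨h, -⟩ | h | h)
  · exact lt_irrefl _ h
  · exact absurd (h ▸ hwa) (lt_irrefl _)
  · exact absurd (hwa.trans (H.ha w h)) (lt_irrefl _)

/-- two consecutive operators cancel up to lower terms at the first deficient position -/
theorem Hyp.pair (H : Hyp p P a s r e) {w w' : Fin (n + 1)} (hpw : p ≤ w)
    (hww : (w : ℕ) + 1 = w') (hwP : w' ≤ P) {y : Fin (n + 1) → ℕ}
    (hsum : ∑ i, y i = ∑ i, e i) (hle : LexLE (wt y) (wt e))
    (heq : ∀ j < w', y j = e j) (hdef : y w' < e w') :
    Tw p w (Mw P a s w) (mono y) + Tw p w' (Mw P a s w') (mono y) ∈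
      msp (fun z => MonLT z (e0f r a s p e)) := by
  have hlt : w < w' := by rw [Fin.lt_def]; omega
  have hpw' : p ≤ w' := hpw.trans (le_of_lt hlt)
  have hplt : p < w' := lt_of_le_of_lt hpw hlt
  have hw'M := H.notMem_Mw hwP
  have hyw : y w = 2 ^ r - 1 := by
    rw [heq w hlt, H.he w hpw ((le_of_lt hlt).trans hwP)]
  have hew' : e w' = 2 ^ r - 1 := H.he w' hpw' hwP
  have hone : 1 ≤ 2 ^ r := Nat.one_le_two_pow
  rw [hew'] at hdef
  -- the two bases
  have hbase : base p w' y = Pi.single w' (2 ^ r - 1 - y w') + base p w y := by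
    funext i
    by_cases hi : i = w'
    · subst hi
      rw [base_mid y hpw hww le_rfl, Pi.add_apply, Pi.single_eq_same, base_gt hpw y hlt, hyw]
      omega
    · rw [Pi.add_apply, Pi.single_eq_of_ne hi, zero_add]
      rcases lt_trichotomy i p with h | h | h
      · rw [base_lt hpw' y h, base_lt hpw y h]
      · rw [h, base_self, base_self]
      · obtain ⟨i', hi', hi'i, hpi'⟩ := exists_pred h
        rcases lt_or_ge w' i with h2 | h2
        · rw [base_gt hpw' y h2, base_gt hpw y (hlt.trans h2)]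
        · have h3 : i ≤ w := by
            have h4 : i < w' := lt_of_le_of_ne h2 hi
            rw [Fin.lt_def] at h4; rw [Fin.le_def]; omega
          rw [base_mid y hpi' hi' h2, base_mid y hpi' hi' h3]
  rw [Tw_mono, Tw_mono, hyw, Mw_succ hww hwP, Cr_insert hw'M, hbase, mono_add, Finset.sum_mul]
  have hmem : 2 ^ r - 1 - y w' - 1 ∈ Finset.range (2 ^ r - 1) := by
    rw [Finset.mem_range]; omega
  rw [← Finset.add_sum_erase _ _ hmem]
  have e2 : 2 ^ r - 1 - y w' - 1 + 1 = 2 ^ r - 1 - y w' := by omega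
  have e3 : 2 ^ r - 1 - (2 ^ r - 1 - y w') = y w' := by omega
  rw [e2, e3, odd_natCast _ (choose_two_pow_sub_one r _ (by omega)), one_mul, X_pow_eq_mono]
  have hcancel : ∀ A B C D : MvPolynomial (Fin (n + 1)) (ZMod 2),
      A * B * C + D + B * (A * C) = D := by
    intro A B C D
    have : A * B * C + D + B * (A * C) = (A * B * C + A * B * C) + D := by ring
    rw [this, CharTwo.add_self_eq_zero, zero_add]
  rw [hcancel]
  refine Submodule.sum_mem _ fun k hk => ?_
  rw [Finset.mem_erase, Finset.mem_range] at hk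
  rw [mul_assoc]
  refine natCast_mul_mem _ fun hodd => ?_
  rw [X_pow_eq_mono]
  have h1 : mono (Pi.single w' (k + 1)) * Cr (Mw P a s w') (2 ^ r - 1 - (k + 1)) ∈
      msp (fun z => ∃ c, Good (Mw P a s w') (2 ^ r - 1 - (k + 1)) c ∧
        z = Pi.single w' (k + 1) + c) := by
    refine msp_mul (Q1 := fun z => z = Pi.single w' (k + 1)) ?_ (mono_mem_msp rfl) (Cr_mem _ _)
    rintro x c rfl hc
    exact ⟨c, hc, rfl⟩
  refine msp_mul (Q2 := fun z => z = base p w y) ?_ h1 (mono_mem_msp rfl)
  rintro x z ⟨c, hc, rfl⟩ rfl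
  have hgood := Good_insert hw'M (a := 2 ^ r - 1) (k := k + 1) (by omega) hodd hc
  rw [← Mw_succ hww hwP, ← hyw] at hgood
  have hcw' : c w' = 0 := H.good_eq_zero hwP hc le_rfl
  have hbw' : base p w y w' = y w' := base_gt hpw y hlt
  by_cases hk2 : k + 1 + y w' < 2 ^ r - 1
  · -- lexicographically smaller
    refine H.low_of_lexF hgood hsum hle ⟨w', ?_, ?_⟩
    · intro j hj
      have hjw : j ≤ w := by rw [Fin.lt_def] at hj; rw [Fin.le_def]; omega
      have hjP : j ≤ P := (le_of_lt hj).trans hwP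
      have hcj : c j = 0 := H.good_eq_zero hwP hc (le_of_lt hj)
      rw [Pi.add_apply, Pi.add_apply, hcj, Pi.single_eq_of_ne (ne_of_lt hj), zero_add, zero_add]
      rcases lt_trichotomy j p with h | h | h
      · rw [base_lt hpw y h, H.e0_eq hjP (ne_of_lt h)]
        exact heq j hj
      · rw [h, base_self, H.e0_p]
      · obtain ⟨j', hj', hj'j, hpj'⟩ := exists_pred h
        rw [base_mid y hpj' hj' hjw, heq j' (hj'j.trans hj), H.e0_eq hjP (ne_of_gt h),
          H.he j' hpj' ((le_of_lt hj'j).trans hjP), H.he j (le_of_lt h) hjP]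
    · rw [Pi.add_apply, Pi.add_apply, hcw', Pi.single_eq_same, hbw',
        H.e0_eq hwP (ne_of_gt hplt), hew']
      omega
  · -- carry
    obtain ⟨b, hb1, hb2⟩ := common_bit (x := k + 1) (y := y w') (R := r) (by omega) (by omega)
      (by omega)
    refine H.low_of_bit hgood hsum hle (i := w') (k := b) ?_ ?_
    · rw [Pi.add_apply, Pi.single_eq_same, hcw', add_zero]; exact hb1
    · rw [hbw']; exact hb2

/-- the operator -/
noncomputable def T (p P a : Fin (n + 1)) (s : Finset (Fin (n + 1))) :
    MvPolynomial (Fin (n + 1)) (ZMod 2) →ₗ[ZMod 2] MvPolynomial (Fin (n + 1)) (ZMod 2) :=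
  ∑ w ∈ Finset.Icc p P, Tw p w (Mw P a s w)

theorem T_hits (p P a : Fin (n + 1)) (s : Finset (Fin (n + 1)))
    {g : MvPolynomial (Fin (n + 1)) (ZMod 2)} (hg : g ∈ hits (n + 1)) :
    T p P a s g ∈ hits (n + 1) := by
  unfold T
  rw [LinearMap.sum_apply]
  exact Submodule.sum_mem _ fun w _ => Tw_hits _ _ _ hg

/-- evaluation when the whole block is full -/
theorem Hyp.T_full (H : Hyp p P a s r e) {y : Fin (n + 1) → ℕ}
    (hsum : ∑ i, y i = ∑ i, e i) (hle : LexLE (wt y) (wt e))
    (hfull : ∀ i, p ≤ i → i ≤ P → y i = 2 ^ r - 1)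
    (hlex : y = e ∨ LexF (Function.update y p 0) (Function.update e p 0)) :
    ∃ L ∈ msp (fun z => MonLT z (e0f r a s p e)),
      T p P a s (mono y) = mono (cstar r a s + Function.update y p 0) + L := by
  have hPmem : P ∈ Finset.Icc p P := Finset.mem_Icc.mpr ⟨H.hpP, le_rfl⟩
  unfold T
  rw [LinearMap.sum_apply, ← Finset.add_sum_erase _ _ hPmem]
  have hMP : Mw P a s P = insert a s := by
    unfold Mw; simp
  have hbase : base p P y = Function.update y p 0 := by
    funext i
    rcases lt_trichotomy i p with h | h | h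
    · rw [base_lt H.hpP y h, Function.update_of_ne (ne_of_lt h)]
    · rw [h, base_self, Function.update_self]
    · rw [Function.update_of_ne (ne_of_gt h)]
      rcases lt_or_ge P i with h2 | h2
      · rw [base_gt H.hpP y h2]
      · obtain ⟨i', hi', hi'i, hpi'⟩ := exists_pred h
        rw [base_mid y hpi' hi' h2, hfull i' hpi' ((le_of_lt hi'i).trans h2),
          hfull i (le_of_lt h) h2]
  have hyP : y P = 2 ^ r - 1 := hfull P H.hpP le_rfl
  obtain ⟨hG, L, hL, hLe⟩ := Cr_lead H.ha H.hcard
  refine ⟨L * mono (Function.update y p 0) +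
    ∑ w ∈ (Finset.Icc p P).erase P, Tw p w (Mw P a s w) (mono y), ?_, ?_⟩
  · refine Submodule.add_mem _ ?_ ?_
    · refine msp_mul (Q2 := fun z => z = Function.update y p 0) ?_ hL (mono_mem_msp rfl)
      rintro c b ⟨hc1, hc2⟩ rfl
      rw [← hbase]
      rw [← hyP] at hc1
      refine H.low_of_lexF hc1 hsum hle ?_
      rw [hbase]
      unfold e0f cstar
      obtain ⟨i, hi, hi'⟩ := hc2
      rcases hlex with h | ⟨j, hj, hj'⟩
      · subst h
        refine ⟨i, fun l hl => ?_, ?_⟩
        · rw [Pi.add_apply, Pi.add_apply, hi l hl]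
        · rw [Pi.add_apply, Pi.add_apply (i := i)]; omega
      · rcases lt_trichotomy i j with h | h | h
        · refine ⟨i, fun l hl => ?_, ?_⟩
          · rw [Pi.add_apply, Pi.add_apply (i := l), hi l hl, hj l (hl.trans h)]
          · rw [Pi.add_apply, Pi.add_apply (i := i), hj i h]; omega
        · subst h
          refine ⟨i, fun l hl => ?_, ?_⟩
          · rw [Pi.add_apply, Pi.add_apply (i := l), hi l hl, hj l hl]
          · rw [Pi.add_apply, Pi.add_apply (i := i)]; omega
        · refine ⟨j, fun l hl => ?_, ?_⟩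
          · rw [Pi.add_apply, Pi.add_apply (i := l), hi l (hl.trans h), hj l hl]
          · rw [Pi.add_apply, Pi.add_apply (i := j), hi j h]; omega
    · refine Submodule.sum_mem _ fun w hw => ?_
      rw [Finset.mem_erase, Finset.mem_Icc] at hw
      have hwP : w < P := lt_of_le_of_ne hw.2.2 hw.1
      obtain ⟨w', hww', hlt', hw'P⟩ := exists_succ hwP
      exact H.low_of_full hw.2.1 hww' hw'P hsum hle (hfull w hw.2.1 hw.2.2)
        (hfull w' (hw.2.1.trans (le_of_lt hlt')) hw'P)
  · rw [Tw_mono, hMP, hyP, hLe, hbase, mono_add (cstar r a s)]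
    unfold cstar
    ring

/-- the operator sends lower monomials to lower monomials -/
theorem Hyp.T_low (H : Hyp p P a s r e) {y : Fin (n + 1) → ℕ} (hy : MonLT y e) :
    T p P a s (mono y) ∈ msp (fun z => MonLT z (e0f r a s p e)) := by
  obtain ⟨hsum, hlt | ⟨hwt, w0, heq, hdef⟩⟩ := hy
  · unfold T
    rw [LinearMap.sum_apply]
    exact Submodule.sum_mem _ fun w _ => H.low_of_wt w _ hsum hlt
  have hle : LexLE (wt y) (wt e) := Or.inl hwt
  rcases lt_or_ge w0 p with h | h
  · -- first difference before `p`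
    unfold T
    rw [LinearMap.sum_apply]
    refine Submodule.sum_mem _ fun w hw => ?_
    rw [Finset.mem_Icc] at hw
    exact H.low_of_lt h hw.1 hw.2 hsum hle heq hdef
  rcases lt_or_ge P w0 with h2 | h2
  · -- first difference behind the block
    have hfull : ∀ i, p ≤ i → i ≤ P → y i = 2 ^ r - 1 := fun i h3 h4 => by
      rw [heq i (lt_of_le_of_lt h4 h2), H.he i h3 h4]
    have hpw0 : p < w0 := lt_of_le_of_lt H.hpP h2
    have hlex : LexF (Function.update y p 0) (Function.update e p 0) := by
      refine ⟨w0, fun j hj => ?_, ?_⟩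
      · by_cases hjp : j = p
        · rw [hjp, Function.update_self, Function.update_self]
        · rw [Function.update_of_ne hjp, Function.update_of_ne hjp, heq j hj]
      · rw [Function.update_of_ne (ne_of_gt hpw0), Function.update_of_ne (ne_of_gt hpw0)]
        exact hdef
    obtain ⟨L, hL, hLe⟩ := H.T_full hsum hle hfull (Or.inr hlex)
    rw [hLe]
    refine Submodule.add_mem _ (mono_mem_msp ?_) hL
    have hbase : base p P y = Function.update y p 0 := by
      funext i
      rcases lt_trichotomy i p with h | h | h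
      · rw [base_lt H.hpP y h, Function.update_of_ne (ne_of_lt h)]
      · rw [h, base_self, Function.update_self]
      · rw [Function.update_of_ne (ne_of_gt h)]
        rcases lt_or_ge P i with h2 | h2
        · rw [base_gt H.hpP y h2]
        · obtain ⟨i', hi', hi'i, hpi'⟩ := exists_pred h
          rw [base_mid y hpi' hi' h2, hfull i' hpi' ((le_of_lt hi'i).trans h2),
            hfull i (le_of_lt h) h2]
    have hG := H.good
    rw [← hfull P H.hpP le_rfl] at hG
    rw [← hbase]
    refine H.low_of_lexF hG hsum hle ?_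
    rw [hbase]
    exact hlex.add_left _
  · -- first difference inside the block
    have hw0mem : w0 ∈ Finset.Icc p P := Finset.mem_Icc.mpr ⟨h, h2⟩
    have hew0 := H.he w0 h h2
    rcases eq_or_lt_of_le h with h3 | h3
    · subst h3
      unfold T
      rw [LinearMap.sum_apply]
      refine Submodule.sum_mem _ fun w hw => ?_
      rw [Finset.mem_Icc] at hw
      rcases eq_or_lt_of_le hw.1 with h4 | h4
      · subst h4
        rw [Tw_mono, Cr_eq_zero, zero_mul]
        · exact Submodule.zero_mem _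
        · have hb := H.hbig
          have : 2 ^ r ≤ 2 ^ (Mw P a s p).card := Nat.pow_le_pow_right (by norm_num) hb
          omega
      · exact H.low_of_def le_rfl h4 hw.2 hsum hle heq hdef
    · obtain ⟨w1, hw1, hlt1, hpw1⟩ := exists_pred h3
      have hw1mem : w1 ∈ (Finset.Icc p P).erase w0 := by
        rw [Finset.mem_erase, Finset.mem_Icc]
        exact ⟨ne_of_lt hlt1, hpw1, (le_of_lt hlt1).trans h2⟩
      unfold T
      rw [LinearMap.sum_apply, ← Finset.add_sum_erase _ _ hw0mem, ← Finset.add_sum_erase _ _ hw1mem,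
        ← add_assoc, add_comm (Tw p w0 (Mw P a s w0) (mono y))]
      refine Submodule.add_mem _ (H.pair hpw1 hw1 h2 hsum hle heq hdef) ?_
      refine Submodule.sum_mem _ fun w hw => ?_
      rw [Finset.mem_erase, Finset.mem_erase, Finset.mem_Icc] at hw
      obtain ⟨hww1, hww0, hpw, hwP⟩ := hw
      rcases lt_or_ge w0 w with h4 | h4
      · exact H.low_of_def h h4 hwP hsum hle heq hdef
      · have h5 : w < w0 := lt_of_le_of_ne h4 hww0
        have h6 : w < w1 := by
          have : (w : ℕ) ≠ w1 := fun hh => hww1 (Fin.ext hh)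
          rw [Fin.lt_def] at h5 ⊢; omega
        obtain ⟨w', hww', hlt', hw'1⟩ := exists_succ h6
        have h7 : w' < w0 := lt_of_le_of_lt hw'1 hlt1
        refine H.low_of_full hpw hww' ((le_of_lt h7).trans h2) hsum hle ?_ ?_
        · rw [heq w h5, H.he w hpw hwP]
        · rw [heq w' h7, H.he w' (hpw.trans (le_of_lt hlt')) ((le_of_lt h7).trans h2)]

/-- admissibility -/
def Adm {d : ℕ} (u : Fin d → ℕ) : Prop :=
  mono u ∉ hits d ⊔ msp (fun y => MonLT y u)

theorem Hyp.adm (H : Hyp p P a s r e) (h : Adm (e0f r a s p e)) : Adm e := by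
  intro hin
  apply h
  rw [Submodule.mem_sup] at hin
  obtain ⟨g, hg, f, hf, hgf⟩ := hin
  obtain ⟨L, hL, hLe⟩ := H.T_full (y := e) rfl (Or.inl rfl) H.he (Or.inl rfl)
  have h1 : T p P a s g ∈ hits (n + 1) := T_hits p P a s hg
  have h2 : T p P a s f ∈ msp (fun z => MonLT z (e0f r a s p e)) := by
    clear hgf
    induction hf using Submodule.span_induction with
    | zero => rw [map_zero]; exact Submodule.zero_mem _
    | add x y _ _ hx hy => rw [map_add]; exact Submodule.add_mem _ hx hy
    | smul a x _ hx => rw [map_smul]; exact Submodule.smul_mem _ _ hx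
    | mem x hx =>
      obtain ⟨y, rfl, hy⟩ := hx
      exact H.T_low hy
  have h3 : mono (e0f r a s p e) = T p P a s g + (T p P a s f - L) := by
    have : T p P a s (mono e) = T p P a s g + T p P a s f := by rw [← hgf, map_add]
    rw [hLe] at this
    unfold e0f
    rw [← add_sub_assoc, ← this]; ring
  rw [h3]
  exact Submodule.add_mem_sup h1 (Submodule.sub_mem _ h2 hL)

end Pool.Agent.Helper60.Hit
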