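import Pool.Agent.Helper60.Hit.Sub

set_option autoImplicit false

namespace Pool.Agent.Helper60.Hit

open MvPolynomial

variable {d : ℕ}

/-- cross sum -/
noncomputable def Cr (M : Finset (Fin d)) (a : ℕ) : MvPolynomial (Fin d) (ZMod 2) :=
  ∑ I ∈ M.powerset, (∑ i ∈ I, (X i : MvPolynomial (Fin d) (ZMod 2))) ^ a

theorem Cr_insert {w : Fin d} {M : Finset (Fin d)} (hw : w ∉ M) (a : ℕ) :
    Cr (insert w M) a = ∑ k ∈ Finset.range a,
      ((a.choose (k + 1) : ℕ) : MvPolynomial (Fin d) (ZMod 2)) * (X w ^ (k + 1) * Cr M (a - (k + 1))) := by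
  unfold Cr
  rw [Finset.sum_powerset_insert hw, ← Finset.sum_add_distrib]
  simp_rw [Finset.mul_sum]
  rw [Finset.sum_comm]
  refine Finset.sum_congr rfl fun I hI => ?_
  have hwI : w ∉ I := fun h => hw (Finset.mem_powerset.mp hI h)
  rw [Finset.sum_insert hwI, add_pow, Finset.sum_range_succ']
  simp only [pow_zero, one_mul, Nat.choose_zero_right, Nat.cast_one, mul_one, Nat.sub_zero]
  rw [add_comm, add_assoc, CharTwo.add_self_eq_zero, add_zero]
  refine Finset.sum_congr rfl fun k _ => ?_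
  ring

/-- the monomials occurring in a cross sum -/
def Good (M : Finset (Fin d)) (a : ℕ) (c : Fin d → ℕ) : Prop :=
  (∀ i, c i ≠ 0 ↔ i ∈ M) ∧ ∑ i, c i = a ∧ ∀ s, wt c s = a / 2 ^ s % 2

theorem wt_single (w : Fin d) (k s : ℕ) : wt (Pi.single w k : Fin d → ℕ) s = k / 2 ^ s % 2 := by
  unfold wt
  rw [Finset.sum_eq_single w]
  · simp
  · intro j _ hj; simp [Pi.single_eq_of_ne hj]
  · simp

theorem Good_insert {w : Fin d} {M : Finset (Fin d)} (hw : w ∉ M) {a k : ℕ} (hk : k ≠ 0)
    (hc : a.choose k % 2 = 1) {c : Fin d → ℕ} (h : Good M (a - k) c) :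
    Good (insert w M) a (Pi.single w k + c) := by
  obtain ⟨hka, hbits⟩ := lucas_bits a k hc
  obtain ⟨h1, h2, h3⟩ := h
  have hcw : c w = 0 := by
    by_contra hne; exact hw ((h1 w).mp hne)
  refine ⟨?_, ?_, ?_⟩
  · intro i
    by_cases hi : i = w
    · subst hi; simp [hk]
    · rw [Pi.add_apply, Pi.single_eq_of_ne hi, zero_add, h1 i]
      simp [hi]
  · simp only [Pi.add_apply]
    rw [Finset.sum_add_distrib, h2, Finset.sum_pi_single']
    simp; omega
  · intro s
    rw [hbits s, ← h3 s, ← wt_single w k s]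
    have := wt_add_eq (a := (Pi.single w k : Fin d → ℕ)) (b := c) ?_
    · rw [this]; rfl
    · rintro i s ⟨ha, hb⟩
      by_cases hi : i = w
      · subst hi; rw [hcw] at hb; simp at hb
      · rw [Pi.single_eq_of_ne hi] at ha; simp at ha

theorem natCast_mul_mem {Q : (Fin d → ℕ) → Prop} {f : MvPolynomial (Fin d) (ZMod 2)} (n : ℕ)
    (h : n % 2 = 1 → f ∈ msp Q) : (n : MvPolynomial (Fin d) (ZMod 2)) * f ∈ msp Q := by
  rcases Nat.mod_two_eq_zero_or_one n with h0 | h1
  · have : (n : MvPolynomial (Fin d) (ZMod 2)) = 0 := by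
      rw [CharP.cast_eq_zero_iff (MvPolynomial (Fin d) (ZMod 2)) 2]; omega
    rw [this, zero_mul]; exact Submodule.zero_mem _
  · have : (n : MvPolynomial (Fin d) (ZMod 2)) = 1 := by
      have h2 : n = 2 * (n / 2) + 1 := by omega
      rw [h2, Nat.cast_add, Nat.cast_mul]
      have : ((2 : ℕ) : MvPolynomial (Fin d) (ZMod 2)) = 0 := CharP.cast_eq_zero _ 2
      rw [this]; simp
    rw [this, one_mul]; exact h h1

theorem odd_natCast (n : ℕ) (h : n % 2 = 1) : (n : MvPolynomial (Fin d) (ZMod 2)) = 1 := by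
  have h2 : n = 2 * (n / 2) + 1 := by omega
  rw [h2, Nat.cast_add, Nat.cast_mul]
  have : ((2 : ℕ) : MvPolynomial (Fin d) (ZMod 2)) = 0 := CharP.cast_eq_zero _ 2
  rw [this]; simp

theorem Cr_mem (M : Finset (Fin d)) (a : ℕ) : Cr M a ∈ msp (Good M a) := by
  induction M using Finset.induction_on generalizing a with
  | empty =>
    unfold Cr
    rw [Finset.powerset_empty, Finset.sum_singleton, Finset.sum_empty]
    rcases Nat.eq_zero_or_pos a with ha | ha
    · subst ha
      rw [pow_zero, one_eq_mono]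
      apply mono_mem_msp
      refine ⟨by simp, by simp, ?_⟩
      intro s; simp [wt]
    · rw [zero_pow (by omega)]; exact Submodule.zero_mem _
  | insert w M hw ih =>
    rw [Cr_insert hw]
    refine Submodule.sum_mem _ fun k hk => natCast_mul_mem _ fun hodd => ?_
    rw [X_pow_eq_mono]
    refine msp_mul (Q1 := fun y => y = Pi.single w (k + 1)) ?_ (mono_mem_msp rfl)
      (ih (a - (k + 1)))
    rintro x y rfl hy
    exact Good_insert hw (by omega) hodd hy

theorem Cr_eq_zero {M : Finset (Fin d)} {a : ℕ} (h : a < 2 ^ M.card - 1) : Cr M a = 0 := by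
  have h1 := Cr_mem M a
  rw [mem_msp_iff] at h1
  ext m
  rw [coeff_zero]
  by_contra hne
  obtain ⟨g1, g2, g3⟩ := h1 m hne
  have := card_le_of_good g2 (fun i hi => (g1 i).mpr hi) g3
  omega

/-! ### leading monomials -/

/-- left lexicographic order on exponent vectors -/
def LexF (c e : Fin d → ℕ) : Prop := ∃ i, (∀ j < i, c j = e j) ∧ c i < e i

theorem LexF.add_left {c e : Fin d → ℕ} (h : LexF c e) (b : Fin d → ℕ) : LexF (b + c) (b + e) := by
  obtain ⟨i, hi, hi'⟩ := h
  exact ⟨i, fun j hj => by simp [hi j hj], by simpa using hi'⟩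

/-- the standard exponent vector on a set: `1` at the largest element, then `2`, `4`, ... -/
def cst (s : Finset (Fin d)) (i : Fin d) : ℕ :=
  if i ∈ s then 2 ^ (s.filter (fun x => i < x)).card else 0

theorem Cr_top {a : Fin d} {s : Finset (Fin d)} (ha : ∀ x ∈ s, a < x) {R : ℕ} (hR : s.card < R) :
    ∃ L ∈ msp (fun c => (∀ j < a, c j = 0) ∧ c a < 2 ^ R - 2 ^ s.card),
      Cr (insert a s) (2 ^ R - 1) = X a ^ (2 ^ R - 2 ^ s.card) * Cr s (2 ^ s.card - 1) + L := by
  have has : a ∉ s := fun h => lt_irrefl _ (ha a h)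
  have hpow : 2 ^ s.card < 2 ^ R := Nat.pow_lt_pow_right (by norm_num) hR
  have hone : 1 ≤ 2 ^ s.card := Nat.one_le_two_pow
  rw [Cr_insert has]
  have hmem : 2 ^ R - 2 ^ s.card - 1 ∈ Finset.range (2 ^ R - 1) := by
    rw [Finset.mem_range]; omega
  rw [← Finset.add_sum_erase _ _ hmem]
  have e1 : ((2 ^ R - 1).choose (2 ^ R - 2 ^ s.card - 1 + 1) : ℕ) = (2 ^ R - 1).choose (2 ^ R - 2 ^ s.card) := by
    congr 1; omega
  have e2 : 2 ^ R - 2 ^ s.card - 1 + 1 = 2 ^ R - 2 ^ s.card := by omega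
  have e3 : 2 ^ R - 1 - (2 ^ R - 2 ^ s.card) = 2 ^ s.card - 1 := by omega
  rw [e2, e3, odd_natCast _ (choose_two_pow_sub_one R _ (by omega)), one_mul]
  refine ⟨_, ?_, rfl⟩
  · refine Submodule.sum_mem _ fun k hk => natCast_mul_mem _ fun hodd => ?_
    rw [Finset.mem_erase, Finset.mem_range] at hk
    by_cases hk2 : k < 2 ^ R - 2 ^ s.card - 1
    · rw [X_pow_eq_mono]
      refine msp_mul (Q1 := fun y => y = Pi.single a (k + 1)) ?_ (mono_mem_msp rfl)
        (Cr_mem s _)
      rintro x y rfl ⟨hy, -, -⟩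
      refine ⟨?_, ?_⟩
      · intro j hj
        have hjs : j ∉ s := fun h => lt_asymm hj (ha j h)
        have : y j = 0 := by by_contra hne; exact hjs ((hy j).mp hne)
        simp [this, Pi.single_eq_of_ne (ne_of_lt hj)]
      · have : y a = 0 := by by_contra hne; exact has ((hy a).mp hne)
        simp only [Pi.add_apply, Pi.single_eq_same, this]; omega
    · have : Cr s (2 ^ R - 1 - (k + 1)) = 0 := Cr_eq_zero (by omega)
      rw [this, mul_zero]; exact Submodule.zero_mem _

theorem cst_insert_of_lt {a : Fin d} {s : Finset (Fin d)} (ha : ∀ x ∈ s, a < x) :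
    cst (insert a s) = Pi.single a (2 ^ s.card) + cst s := by
  have has : a ∉ s := fun h => lt_irrefl _ (ha a h)
  funext i
  by_cases hi : i = a
  · subst hi
    simp only [cst, Finset.mem_insert_self, if_true, Pi.add_apply, Pi.single_eq_same, has,
      if_false, add_zero]
    congr 2
    ext x
    simp only [Finset.mem_filter, Finset.mem_insert]
    constructor
    · rintro ⟨rfl | h, h'⟩
      · exact absurd h' (lt_irrefl _)
      · exact h
    · intro h; exact ⟨Or.inr h, ha x h⟩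
  · rw [Pi.add_apply, Pi.single_eq_of_ne hi, zero_add]
    simp only [cst, Finset.mem_insert, hi, false_or]
    by_cases his : i ∈ s
    · rw [if_pos his, if_pos his]
      congr 2
      ext x
      simp only [Finset.mem_filter, Finset.mem_insert]
      constructor
      · rintro ⟨rfl | h, h'⟩
        · exact absurd (h'.trans (ha i his)) (lt_irrefl _)
        · exact ⟨h, h'⟩
      · rintro ⟨h, h'⟩; exact ⟨Or.inr h, h'⟩
    · rw [if_neg his, if_neg his]

theorem Cr_topB {a : Fin d} {s : Finset (Fin d)} (ha : ∀ x ∈ s, a < x) {R : ℕ} (hR : s.card < R)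
    (hs : ∃ L ∈ msp (fun c => LexF c (cst s)), Cr s (2 ^ s.card - 1) = mono (cst s) + L) :
    ∃ L ∈ msp (fun c => LexF c (Pi.single a (2 ^ R - 2 ^ s.card) + cst s)),
      Cr (insert a s) (2 ^ R - 1) = mono (Pi.single a (2 ^ R - 2 ^ s.card) + cst s) + L := by
  have has : a ∉ s := fun h => lt_irrefl _ (ha a h)
  obtain ⟨L, hL, hLe⟩ := hs
  obtain ⟨L', hL', hLe'⟩ := Cr_top ha hR
  refine ⟨mono (Pi.single a (2 ^ R - 2 ^ s.card)) * L + L', ?_, ?_⟩
  · refine Submodule.add_mem _ ?_ ?_
    · refine msp_mul (Q1 := fun y => y = Pi.single a (2 ^ R - 2 ^ s.card)) ?_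
        (mono_mem_msp rfl) hL
      rintro x y rfl hy
      exact hy.add_left _
    · refine msp_mono ?_ hL'
      rintro c ⟨h1, h2⟩
      refine ⟨a, ?_, ?_⟩
      · intro j hj
        have hjs : j ∉ s := fun h => lt_asymm hj (ha j h)
        simp [h1 j hj, Pi.single_eq_of_ne (ne_of_lt hj), cst, hjs]
      · simp only [Pi.add_apply, Pi.single_eq_same, cst, has, if_false, add_zero]; exact h2
  · rw [hLe', hLe, mono_add, X_pow_eq_mono]; ring

theorem Cr_topA (s : Finset (Fin d)) :
    ∃ L ∈ msp (fun c => LexF c (cst s)), Cr s (2 ^ s.card - 1) = mono (cst s) + L := by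
  induction s using Finset.induction_on_min with
  | empty =>
    refine ⟨0, Submodule.zero_mem _, ?_⟩
    have : cst (∅ : Finset (Fin d)) = 0 := by funext i; simp [cst]
    rw [this, ← one_eq_mono]
    simp [Cr]
  | insert a s ha ih =>
    have has : a ∉ s := fun h => lt_irrefl _ (ha a h)
    have h1 := Cr_topB ha (Nat.lt_succ_self s.card) ih
    have h2 : 2 ^ (s.card + 1) - 2 ^ s.card = 2 ^ s.card := by rw [pow_succ]; omega
    rw [Nat.succ_eq_add_one, h2, ← cst_insert_of_lt ha] at h1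
    rw [Finset.card_insert_of_notMem has]
    exact h1

/-- Combined statement: the cross sum over `insert a s` at `2^R-1`. -/
theorem Cr_lead {a : Fin d} {s : Finset (Fin d)} (ha : ∀ x ∈ s, a < x) {R : ℕ} (hR : s.card < R) :
    Good (insert a s) (2 ^ R - 1) (Pi.single a (2 ^ R - 2 ^ s.card) + cst s) ∧
    ∃ L ∈ msp (fun c => Good (insert a s) (2 ^ R - 1) c ∧
        LexF c (Pi.single a (2 ^ R - 2 ^ s.card) + cst s)),
      Cr (insert a s) (2 ^ R - 1) = mono (Pi.single a (2 ^ R - 2 ^ s.card) + cst s) + L := by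
  obtain ⟨L, hL, hLe⟩ := Cr_topB ha hR (Cr_topA s)
  set cs := (Pi.single a (2 ^ R - 2 ^ s.card) + cst s : Fin d → ℕ) with hcs
  have hG := Cr_mem (insert a s) (2 ^ R - 1)
  rw [mem_msp_iff] at hG hL
  have hirr : ¬ LexF cs cs := by rintro ⟨i, -, hi⟩; exact lt_irrefl _ hi
  refine ⟨?_, L, ?_, hLe⟩
  · have h1 : coeff (Finsupp.equivFunOnFinite.symm cs) (Cr (insert a s) (2 ^ R - 1)) ≠ 0 := by
      rw [hLe, coeff_add, coeff_mono, if_pos (by rfl)]
      have : coeff (Finsupp.equivFunOnFinite.symm cs) L = 0 := by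
        by_contra hne
        exact hirr (hL _ hne)
      rw [this]; simp
    exact hG _ h1
  · rw [mem_msp_iff]
    intro m hm
    have hm1 := hL m hm
    refine ⟨?_, hm1⟩
    apply hG
    rw [hLe, coeff_add, coeff_mono, if_neg, zero_add]
    · exact hm
    · intro hc; rw [hc] at hm1; exact hirr hm1

end Pool.Agent.Helper60.Hit
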