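import Pool.Agent.Helper60.Hit.Cr

set_option autoImplicit false

namespace Pool.Agent.Helper60.Hit

open MvPolynomial

variable {n : ℕ}

/-- the substitution `X_w ↦ ∑_{i ∈ I} X_i`, the other variables are closed up, leaving out `X_p` -/
noncomputable def subst (p w : Fin (n + 1)) (I : Finset (Fin (n + 1))) :
    MvPolynomial (Fin (n + 1)) (ZMod 2) →ₐ[ZMod 2] MvPolynomial (Fin (n + 1)) (ZMod 2) :=
  aeval (Fin.insertNth (α := fun _ => MvPolynomial (Fin (n + 1)) (ZMod 2)) w (∑ i ∈ I, X i)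
    (fun j => X (p.succAbove j)))

theorem subst_hits (p w : Fin (n + 1)) (I : Finset (Fin (n + 1)))
    {g : MvPolynomial (Fin (n + 1)) (ZMod 2)} (hg : g ∈ hits (n + 1)) :
    subst p w I g ∈ hits (n + 1) := by
  refine aeval_hits _ (fun i => ?_) hg
  rcases Fin.eq_self_or_eq_succAbove w i with rfl | ⟨j, rfl⟩
  · rw [Fin.insertNth_apply_same]; exact lin_sum _
  · rw [Fin.insertNth_apply_succAbove]; exact lin_X _

/-- sum of the substitutions over all subsets of `M` -/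
noncomputable def Tw (p w : Fin (n + 1)) (M : Finset (Fin (n + 1))) :
    MvPolynomial (Fin (n + 1)) (ZMod 2) →ₗ[ZMod 2] MvPolynomial (Fin (n + 1)) (ZMod 2) :=
  ∑ I ∈ M.powerset, (subst p w I).toLinearMap

theorem Tw_hits (p w : Fin (n + 1)) (M : Finset (Fin (n + 1)))
    {g : MvPolynomial (Fin (n + 1)) (ZMod 2)} (hg : g ∈ hits (n + 1)) :
    Tw p w M g ∈ hits (n + 1) := by
  unfold Tw
  rw [LinearMap.sum_apply]
  exact Submodule.sum_mem _ fun I _ => subst_hits p w I hg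

/-- the exponent vector with `y w` taken out and a `0` put in at `p` -/
def base (p w : Fin (n + 1)) (y : Fin (n + 1) → ℕ) : Fin (n + 1) → ℕ :=
  Fin.insertNth (α := fun _ => ℕ) p 0 (fun j => y (w.succAbove j))

theorem Tw_mono (p w : Fin (n + 1)) (M : Finset (Fin (n + 1))) (y : Fin (n + 1) → ℕ) :
    Tw p w M (mono y) = Cr M (y w) * mono (base p w y) := by
  unfold Tw Cr
  rw [LinearMap.sum_apply, Finset.sum_mul]
  refine Finset.sum_congr rfl fun I _ => ?_
  show subst p w I (mono y) = _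
  unfold subst
  rw [aeval_mono, Fin.prod_univ_succAbove _ w, Fin.insertNth_apply_same]
  congr 1
  rw [mono_eq_prod, Fin.prod_univ_succAbove _ p]
  unfold base
  rw [Fin.insertNth_apply_same, pow_zero, one_mul]
  refine Finset.prod_congr rfl fun j _ => ?_
  rw [Fin.insertNth_apply_succAbove, Fin.insertNth_apply_succAbove]

theorem wt_base (p w : Fin (n + 1)) (y : Fin (n + 1) → ℕ) (s : ℕ) :
    y w / 2 ^ s % 2 + wt (base p w y) s = wt y s := by
  unfold wt
  rw [Fin.sum_univ_succAbove (fun j => base p w y j / 2 ^ s % 2) p,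
    Fin.sum_univ_succAbove (fun j => y j / 2 ^ s % 2) w]
  unfold base
  rw [Fin.insertNth_apply_same]
  simp only [Fin.insertNth_apply_succAbove]
  simp

theorem sum_base (p w : Fin (n + 1)) (y : Fin (n + 1) → ℕ) :
    y w + ∑ i, base p w y i = ∑ i, y i := by
  rw [Fin.sum_univ_succAbove (fun i => base p w y i) p, Fin.sum_univ_succAbove (fun i => y i) w]
  unfold base
  rw [Fin.insertNth_apply_same]
  simp only [Fin.insertNth_apply_succAbove]
  simp

theorem base_self (p w : Fin (n + 1)) (y : Fin (n + 1) → ℕ) : base p w y p = 0 := by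
  unfold base; rw [Fin.insertNth_apply_same]

theorem base_lt {p w : Fin (n + 1)} (hpw : p ≤ w) (y : Fin (n + 1) → ℕ) {i : Fin (n + 1)}
    (hi : i < p) : base p w y i = y i := by
  obtain ⟨j, rfl⟩ := Fin.exists_succAbove_eq (ne_of_lt hi)
  unfold base
  rw [Fin.insertNth_apply_succAbove]
  congr 1
  by_cases h : j.castSucc < p
  · rw [Fin.succAbove_of_castSucc_lt _ _ h, Fin.succAbove_of_castSucc_lt _ _ (lt_of_lt_of_le h hpw)]
  · rw [Fin.succAbove_of_le_castSucc _ _ (not_lt.mp h)] at hi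
    exfalso
    rw [Fin.lt_def] at hi h
    simp at hi h; omega

theorem base_gt {p w : Fin (n + 1)} (hpw : p ≤ w) (y : Fin (n + 1) → ℕ) {i : Fin (n + 1)}
    (hi : w < i) : base p w y i = y i := by
  obtain ⟨j, rfl⟩ := Fin.exists_succAbove_eq (ne_of_gt (lt_of_le_of_lt hpw hi))
  unfold base
  rw [Fin.insertNth_apply_succAbove]
  congr 1
  by_cases h : j.castSucc < p
  · rw [Fin.succAbove_of_castSucc_lt _ _ h] at hi
    exfalso
    rw [Fin.lt_def] at hi h
    rw [Fin.le_def] at hpw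
    simp at hi h; omega
  · rw [Fin.succAbove_of_le_castSucc _ _ (not_lt.mp h)] at hi ⊢
    rw [Fin.succAbove_of_le_castSucc]
    rw [Fin.lt_def] at hi
    rw [Fin.le_def]
    simp at hi ⊢; omega

theorem base_mid {p w : Fin (n + 1)} (y : Fin (n + 1) → ℕ) {i i' : Fin (n + 1)}
    (h1 : p ≤ i') (h2 : (i' : ℕ) + 1 = i) (h3 : i ≤ w) : base p w y i = y i' := by
  have hne : i ≠ p := by
    intro h; subst h; rw [Fin.le_def] at h1; omega
  obtain ⟨j, rfl⟩ := Fin.exists_succAbove_eq hne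
  unfold base
  rw [Fin.insertNth_apply_succAbove]
  congr 1
  by_cases h : j.castSucc < p
  · rw [Fin.succAbove_of_castSucc_lt _ _ h] at h2
    exfalso
    rw [Fin.lt_def] at h
    rw [Fin.le_def] at h1
    simp at h2 h; omega
  · rw [Fin.succAbove_of_le_castSucc _ _ (not_lt.mp h)] at h2 h3
    rw [Fin.succAbove_of_castSucc_lt]
    · ext; simp at h2 ⊢; omega
    · rw [Fin.le_def] at h3
      rw [Fin.lt_def]
      simp at h3 ⊢; omega

/-- the order on monomials -/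
def MonLT {d : ℕ} (y u : Fin d → ℕ) : Prop :=
  ∑ j, y j = ∑ j, u j ∧ (LexLT (wt y) (wt u) ∨ (wt y = wt u ∧ LexF y u))

def Mw (P a : Fin (n + 1)) (s : Finset (Fin (n + 1))) (w : Fin (n + 1)) : Finset (Fin (n + 1)) :=
  Finset.Ioc w P ∪ insert a s

def cstar (r : ℕ) (a : Fin (n + 1)) (s : Finset (Fin (n + 1))) : Fin (n + 1) → ℕ :=
  Pi.single a (2 ^ r - 2 ^ s.card) + cst s

/-- the target exponent vector -/
def e0f (r : ℕ) (a : Fin (n + 1)) (s : Finset (Fin (n + 1))) (p : Fin (n + 1))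
    (e : Fin (n + 1) → ℕ) : Fin (n + 1) → ℕ :=
  cstar r a s + Function.update e p 0

structure Hyp (p P a : Fin (n + 1)) (s : Finset (Fin (n + 1))) (r : ℕ) (e : Fin (n + 1) → ℕ) :
    Prop where
  hpP : p ≤ P
  hPa : P < a
  ha : ∀ x ∈ s, a < x
  hcard : s.card < r
  hbig : r ≤ (Mw P a s p).card
  he : ∀ i, p ≤ i → i ≤ P → e i = 2 ^ r - 1
  hwt : wt (e0f r a s p e) = wt e

variable {p P a : Fin (n + 1)} {s : Finset (Fin (n + 1))} {r : ℕ} {e : Fin (n + 1) → ℕ}

theorem Hyp.good (H : Hyp p P a s r e) : Good (insert a s) (2 ^ r - 1) (cstar r a s) :=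
  (Cr_lead H.ha H.hcard).1

theorem Hyp.sum_e0 (H : Hyp p P a s r e) : ∑ i, e0f r a s p e i = ∑ i, e i := by
  unfold e0f
  simp only [Pi.add_apply]
  rw [Finset.sum_add_distrib, H.good.2.1]
  rw [Fin.sum_univ_succAbove _ p, Fin.sum_univ_succAbove (fun i => e i) p, H.he p le_rfl H.hpP]
  rw [Function.update_self]
  simp

theorem Hyp.cstar_eq_zero (H : Hyp p P a s r e) {i : Fin (n + 1)} (hi : i < a) :
    cstar r a s i = 0 := by
  by_contra hne
  have := (H.good.1 i).mp hne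
  rw [Finset.mem_insert] at this
  rcases this with h | h
  · exact absurd (h ▸ hi) (lt_irrefl _)
  · exact absurd (hi.trans (H.ha i h)) (lt_irrefl _)

theorem Hyp.e0_eq (H : Hyp p P a s r e) {i : Fin (n + 1)} (hi : i ≤ P) (hip : i ≠ p) :
    e0f r a s p e i = e i := by
  unfold e0f
  rw [Pi.add_apply, H.cstar_eq_zero (lt_of_le_of_lt hi H.hPa), Function.update_of_ne hip, zero_add]

theorem Hyp.e0_p (H : Hyp p P a s r e) : e0f r a s p e p = 0 := by
  unfold e0f
  rw [Pi.add_apply, H.cstar_eq_zero (lt_of_le_of_lt H.hpP H.hPa), Function.update_self]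

theorem Hyp.good_eq_zero (H : Hyp p P a s r e) {w : Fin (n + 1)} {c : Fin (n + 1) → ℕ} {b : ℕ}
    (hw : w ≤ P) (hc : Good (Mw P a s w) b c) {i : Fin (n + 1)} (hi : i ≤ w) : c i = 0 := by
  by_contra hne
  have := (hc.1 i).mp hne
  unfold Mw at this
  rw [Finset.mem_union, Finset.mem_Ioc, Finset.mem_insert] at this
  rcases this with ⟨h, -⟩ | h | h
  · exact absurd h (not_lt.mpr hi)
  · exact absurd (h ▸ (lt_of_le_of_lt (hi.trans hw) H.hPa)) (lt_irrefl _)
  · exact absurd ((lt_of_le_of_lt (hi.trans hw) H.hPa).trans (H.ha i h)) (lt_irrefl _)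

/-- all monomials in `Tw (mono y)` -/
theorem Tw_mem (p w : Fin (n + 1)) (M : Finset (Fin (n + 1))) (y : Fin (n + 1) → ℕ) :
    Tw p w M (mono y) ∈ msp (fun z => ∃ c, Good M (y w) c ∧ z = c + base p w y) := by
  rw [Tw_mono]
  refine msp_mul (Q2 := fun z => z = base p w y) ?_ (Cr_mem M (y w)) (mono_mem_msp rfl)
  rintro c b hc rfl
  exact ⟨c, hc, rfl⟩

theorem good_wt {M : Finset (Fin (n + 1))} {c y : Fin (n + 1) → ℕ} {w : Fin (n + 1)}
    (hc : Good M (y w) c) (p : Fin (n + 1)) : wt c + wt (base p w y) = wt y := by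
  funext s
  rw [Pi.add_apply, hc.2.2 s, wt_base]

theorem good_sum {M : Finset (Fin (n + 1))} {c y : Fin (n + 1) → ℕ} {w : Fin (n + 1)}
    (hc : Good M (y w) c) (p : Fin (n + 1)) : ∑ i, (c + base p w y) i = ∑ i, y i := by
  simp only [Pi.add_apply]
  rw [Finset.sum_add_distrib, hc.2.1, sum_base]

theorem monLT_of_lexF {y u : Fin (n + 1) → ℕ} (h1 : ∑ i, y i = ∑ i, u i)
    (h2 : LexLE (wt y) (wt u)) (h3 : LexF y u) : MonLT y u := by
  refine ⟨h1, ?_⟩
  rcases h2 with h | h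
  · exact Or.inr ⟨h, h3⟩
  · exact Or.inl h

theorem Hyp.low_of_lexF (H : Hyp p P a s r e) {M : Finset (Fin (n + 1))}
    {c y : Fin (n + 1) → ℕ} {w : Fin (n + 1)}
    (hc : Good M (y w) c) (hsum : ∑ i, y i = ∑ i, e i) (hle : LexLE (wt y) (wt e))
    (hlex : LexF (c + base p w y) (e0f r a s p e)) : MonLT (c + base p w y) (e0f r a s p e) := by
  refine monLT_of_lexF ?_ ?_ hlex
  · rw [good_sum hc, hsum, H.sum_e0]
  · rw [H.hwt]
    have h1 := wt_add_le c (base p w y)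
    rw [good_wt hc] at h1
    rcases h1 with h | h
    · rw [h]; exact hle
    · exact Or.inr (h.trans_le hle)

theorem Hyp.low_of_bit (H : Hyp p P a s r e) {M : Finset (Fin (n + 1))}
    {c y : Fin (n + 1) → ℕ} {w : Fin (n + 1)}
    (hc : Good M (y w) c) (hsum : ∑ i, y i = ∑ i, e i) (hle : LexLE (wt y) (wt e))
    {i : Fin (n + 1)} {k : ℕ} (hb1 : c i / 2 ^ k % 2 = 1) (hb2 : base p w y i / 2 ^ k % 2 = 1) :
    MonLT (c + base p w y) (e0f r a s p e) := by
  refine ⟨?_, Or.inl ?_⟩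
  · rw [good_sum hc, hsum, H.sum_e0]
  · rw [H.hwt]
    have h1 := wt_add_lt hb1 hb2
    rw [good_wt hc] at h1
    exact h1.trans_le hle

/-- Case A: smaller weight vector. -/
theorem Hyp.low_of_wt (H : Hyp p P a s r e) (w : Fin (n + 1)) (M : Finset (Fin (n + 1)))
    {y : Fin (n + 1) → ℕ} (hsum : ∑ i, y i = ∑ i, e i) (hlt : LexLT (wt y) (wt e)) :
    Tw p w M (mono y) ∈ msp (fun z => MonLT z (e0f r a s p e)) := by
  refine msp_mono ?_ (Tw_mem p w M y)
  rintro z ⟨c, hc, rfl⟩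
  refine ⟨?_, Or.inl ?_⟩
  · rw [good_sum hc, hsum, H.sum_e0]
  · rw [H.hwt]
    have h1 := wt_add_le c (base p w y)
    rw [good_wt hc] at h1
    exact h1.trans_lt hlt

/-- successor position inside the block -/
theorem exists_succ {w v : Fin (n + 1)} (h : w < v) :
    ∃ w' : Fin (n + 1), (w : ℕ) + 1 = w' ∧ w < w' ∧ w' ≤ v := by
  have h1 := w.2
  have h2 := v.2
  rw [Fin.lt_def] at h
  refine ⟨⟨(w : ℕ) + 1, by omega⟩, rfl, ?_, ?_⟩
  · rw [Fin.lt_def]; show (w : ℕ) < (w : ℕ) + 1; omega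
  · rw [Fin.le_def]; show (w : ℕ) + 1 ≤ v; omega

theorem exists_pred {w v : Fin (n + 1)} (h : v < w) :
    ∃ w' : Fin (n + 1), (w' : ℕ) + 1 = w ∧ w' < w ∧ v ≤ w' := by
  have h1 := w.2
  have h2 := v.2
  rw [Fin.lt_def] at h
  refine ⟨⟨(w : ℕ) - 1, by omega⟩, ?_, ?_, ?_⟩
  · show (w : ℕ) - 1 + 1 = w; omega
  · rw [Fin.lt_def]; show (w : ℕ) - 1 < w; omega
  · rw [Fin.le_def]; show (v : ℕ) ≤ (w : ℕ) - 1; omega

/-- carry case: `y` is full at `w` and `w+1 ≤ P`. -/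
theorem Hyp.low_of_full (H : Hyp p P a s r e) {w w' : Fin (n + 1)} (hpw : p ≤ w)
    (hww : (w : ℕ) + 1 = w') (hwP : w' ≤ P) {y : Fin (n + 1) → ℕ}
    (hsum : ∑ i, y i = ∑ i, e i) (hle : LexLE (wt y) (wt e))
    (hyw : y w = 2 ^ r - 1) (hyw' : y w' = 2 ^ r - 1) :
    Tw p w (Mw P a s w) (mono y) ∈ msp (fun z => MonLT z (e0f r a s p e)) := by
  refine msp_mono ?_ (Tw_mem p w _ y)
  rintro z ⟨c, hc, rfl⟩
  have hlt : w < w' := by rw [Fin.lt_def]; omega
  have h1 : c w' ≠ 0 := by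
    rw [hc.1 w']
    unfold Mw
    rw [Finset.mem_union, Finset.mem_Ioc]
    exact Or.inl ⟨hlt, hwP⟩
  have h2 : c w' ≤ 2 ^ r - 1 := by
    have := Finset.single_le_sum (f := c) (fun _ _ => Nat.zero_le _) (Finset.mem_univ w')
    rw [hc.2.1, hyw] at this
    exact this
  have h3 : base p w y w' = 2 ^ r - 1 := by rw [base_gt hpw y hlt, hyw']
  have hone : 1 ≤ 2 ^ r := Nat.one_le_two_pow
  obtain ⟨k, hk1, hk2⟩ := common_bit (x := c w') (y := base p w y w') (R := r)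
    (by omega) (by omega) (by omega)
  exact H.low_of_bit hc hsum hle hk1 hk2

/-- deficient position strictly before `w`. -/
theorem Hyp.low_of_def (H : Hyp p P a s r e) {w w0 : Fin (n + 1)} (hpw0 : p ≤ w0)
    (hw0w : w0 < w) (hwP : w ≤ P) {y : Fin (n + 1) → ℕ}
    (hsum : ∑ i, y i = ∑ i, e i) (hle : LexLE (wt y) (wt e))
    (heq : ∀ j < w0, y j = e j) (hdef : y w0 < e w0) :
    Tw p w (Mw P a s w) (mono y) ∈ msp (fun z => MonLT z (e0f r a s p e)) := by
  refine msp_mono ?_ (Tw_mem p w _ y)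
  rintro z ⟨c, hc, rfl⟩
  refine H.low_of_lexF hc hsum hle ?_
  obtain ⟨w1, hw1, hw01, hw1w⟩ := exists_succ hw0w
  have hpw : p ≤ w := hpw0.trans (le_of_lt hw0w)
  refine ⟨w1, ?_, ?_⟩
  · intro j hj
    rw [Pi.add_apply, H.good_eq_zero hwP hc ((le_of_lt hj).trans hw1w), zero_add]
    rcases lt_trichotomy j p with h | h | h
    · rw [base_lt hpw y h, H.e0_eq ((le_of_lt h).trans H.hpP) (ne_of_lt h)]
      exact heq j (lt_of_lt_of_le h hpw0)
    · rw [h, base_self, H.e0_p]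
    · obtain ⟨j', hj', hj'j, hpj'⟩ := exists_pred h
      have hjw0 : j ≤ w0 := by rw [Fin.lt_def] at hj; rw [Fin.le_def]; omega
      rw [base_mid y hpj' hj' ((le_of_lt hj).trans hw1w), heq j' (lt_of_lt_of_le hj'j hjw0)]
      rw [H.e0_eq ((le_of_lt hj).trans (hw1w.trans hwP)) (ne_of_gt h)]
      rw [H.he j' hpj' ((le_of_lt hj'j).trans ((le_of_lt hj).trans (hw1w.trans hwP)))]
      rw [H.he j (le_of_lt h) ((le_of_lt hj).trans (hw1w.trans hwP))]
  · rw [Pi.add_apply, H.good_eq_zero hwP hc hw1w, zero_add, base_mid y hpw0 hw1 hw1w]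
    have hpw1 : p < w1 := lt_of_le_of_lt hpw0 hw01
    rw [H.e0_eq (hw1w.trans hwP) (ne_of_gt hpw1), H.he w1 (le_of_lt hpw1) (hw1w.trans hwP)]
    rw [H.he w0 hpw0 ((le_of_lt hw0w).trans hwP)] at hdef
    exact hdef

/-- deficient position before `p`. -/
theorem Hyp.low_of_lt (H : Hyp p P a s r e) {w w0 : Fin (n + 1)} (hpw0 : w0 < p)
    (hpw : p ≤ w) (hwP : w ≤ P) {y : Fin (n + 1) → ℕ}
    (hsum : ∑ i, y i = ∑ i, e i) (hle : LexLE (wt y) (wt e))
    (heq : ∀ j < w0, y j = e j) (hdef : y w0 < e w0) :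
    Tw p w (Mw P a s w) (mono y) ∈ msp (fun z => MonLT z (e0f r a s p e)) := by
  refine msp_mono ?_ (Tw_mem p w _ y)
  rintro z ⟨c, hc, rfl⟩
  refine H.low_of_lexF hc hsum hle ⟨w0, ?_, ?_⟩
  · intro j hj
    have hjp := hj.trans hpw0
    rw [Pi.add_apply, H.good_eq_zero hwP hc ((le_of_lt hjp).trans hpw), zero_add,
      base_lt hpw y hjp, H.e0_eq ((le_of_lt hjp).trans H.hpP) (ne_of_lt hjp)]
    exact heq j hj
  · rw [Pi.add_apply, H.good_eq_zero hwP hc ((le_of_lt hpw0).trans hpw), zero_add,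
      base_lt hpw y hpw0, H.e0_eq ((le_of_lt hpw0).trans H.hpP) (ne_of_lt hpw0)]
    exact hdef

end Pool.Agent.Helper60.Hit
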