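import Pool.Agent.Helper60.Hit.Bits

set_option autoImplicit false

namespace Pool.Agent.Helper60.Hit

open MvPolynomial

variable {d : ℕ}

/-- the monomial with exponent vector `e` -/
noncomputable def mono {d : ℕ} (e : Fin d → ℕ) : MvPolynomial (Fin d) (ZMod 2) :=
  monomial (Finsupp.equivFunOnFinite.symm e) 1

/-- total Steenrod square -/
noncomputable def Sq (d : ℕ) : MvPolynomial (Fin d) (ZMod 2) →ₐ[ZMod 2] MvPolynomial (Fin d) (ZMod 2) :=
  aeval (fun j : Fin d => (X j + X j ^ 2 : MvPolynomial (Fin d) (ZMod 2)))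

/-- the hit polynomials -/
noncomputable def hits (d : ℕ) : Submodule (ZMod 2) (MvPolynomial (Fin d) (ZMod 2)) :=
  Submodule.span (ZMod 2)
    {g : MvPolynomial (Fin d) (ZMod 2) | ∃ (e : Fin d → ℕ) (i : ℕ), 0 < i ∧
      g = homogeneousComponent ((∑ j, e j) + i) (Sq d (mono e))}

/-- span of the monomials with a property -/
noncomputable def msp (Q : (Fin d → ℕ) → Prop) : Submodule (ZMod 2) (MvPolynomial (Fin d) (ZMod 2)) :=
  Submodule.span (ZMod 2) {g | ∃ y : Fin d → ℕ, g = mono y ∧ Q y}

theorem mono_mem_msp {Q : (Fin d → ℕ) → Prop} {y : Fin d → ℕ} (h : Q y) : mono y ∈ msp Q :=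
  Submodule.subset_span ⟨y, rfl, h⟩

theorem msp_mono {Q Q' : (Fin d → ℕ) → Prop} (h : ∀ y, Q y → Q' y) : msp Q ≤ msp Q' := by
  apply Submodule.span_mono
  rintro g ⟨y, rfl, hy⟩
  exact ⟨y, rfl, h y hy⟩

theorem mono_add (a b : Fin d → ℕ) : mono (a + b) = mono a * mono b := by
  unfold mono
  rw [monomial_mul, one_mul]
  have : (Finsupp.equivFunOnFinite.symm (a + b) : Fin d →₀ ℕ) =
      Finsupp.equivFunOnFinite.symm a + Finsupp.equivFunOnFinite.symm b := by
    ext; rfl
  rw [this]

theorem aeval_mono {τ : Type*} (f : Fin d → MvPolynomial τ (ZMod 2)) (y : Fin d → ℕ) :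
    aeval f (mono y) = ∏ i, f i ^ y i := by
  unfold mono
  rw [aeval_monomial, map_one, one_mul, Finsupp.prod_fintype]
  · rfl
  · intro i; simp

theorem mono_eq_prod (y : Fin d → ℕ) : mono y = ∏ i, (X i : MvPolynomial (Fin d) (ZMod 2)) ^ y i := by
  have := aeval_mono (fun i => (X i : MvPolynomial (Fin d) (ZMod 2))) y
  rw [aeval_X_left] at this
  simpa using this

theorem coeff_mono (m : Fin d →₀ ℕ) (y : Fin d → ℕ) :
    coeff m (mono y) = if ⇑m = y then 1 else 0 := by
  unfold mono
  rw [coeff_monomial]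
  congr 1
  rw [eq_iff_iff]
  constructor
  · intro h; rw [← h]; rfl
  · intro h; rw [← h]; ext; rfl

theorem mem_msp_iff {Q : (Fin d → ℕ) → Prop} {f : MvPolynomial (Fin d) (ZMod 2)} :
    f ∈ msp Q ↔ ∀ m : Fin d →₀ ℕ, coeff m f ≠ 0 → Q ⇑m := by
  constructor
  · intro h
    induction h using Submodule.span_induction with
    | mem x hx =>
      obtain ⟨y, rfl, hy⟩ := hx
      intro m hm
      rw [coeff_mono] at hm
      have : ⇑m = y := by by_contra hc; simp [hc] at hm
      rw [this]; exact hy
    | zero => intro m hm; simp at hm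
    | add x y _ _ hx hy =>
      intro m hm
      rw [coeff_add] at hm
      by_cases h1 : coeff m x = 0
      · rw [h1, zero_add] at hm; exact hy m hm
      · exact hx m h1
    | smul a x _ hx =>
      intro m hm
      rw [coeff_smul, smul_eq_mul] at hm
      exact hx m (right_ne_zero_of_mul hm)
  · intro h
    rw [← support_sum_monomial_coeff f]
    refine Submodule.sum_mem _ fun m hm => ?_
    have h1 : monomial m (coeff m f) = (coeff m f) • mono ⇑m := by
      unfold mono
      rw [smul_monomial, smul_eq_mul, mul_one]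
      have : (Finsupp.equivFunOnFinite.symm ⇑m : Fin d →₀ ℕ) = m := by ext; rfl
      rw [this]
    rw [h1]
    exact Submodule.smul_mem _ _ (mono_mem_msp (h m (mem_support_iff.mp hm)))

theorem msp_mul {Q1 Q2 Q3 : (Fin d → ℕ) → Prop} (h : ∀ a b, Q1 a → Q2 b → Q3 (a + b))
    {f g : MvPolynomial (Fin d) (ZMod 2)} (hf : f ∈ msp Q1) (hg : g ∈ msp Q2) : f * g ∈ msp Q3 := by
  have h1 : msp Q1 * msp Q2 ≤ msp Q3 := by
    unfold msp
    rw [Submodule.span_mul_span]
    apply Submodule.span_mono
    rintro g ⟨x, ⟨a, rfl, ha⟩, y, ⟨b, rfl, hb⟩, rfl⟩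
    exact ⟨a + b, (mono_add a b).symm, h a b ha hb⟩
  exact h1 (Submodule.mul_mem_mul hf hg)

theorem X_pow_eq_mono (i : Fin d) (k : ℕ) :
    (X i : MvPolynomial (Fin d) (ZMod 2)) ^ k = mono (Pi.single i k) := by
  classical
  rw [mono_eq_prod, Finset.prod_eq_single i]
  · simp
  · intro j _ hj; simp [Pi.single_eq_of_ne hj]
  · simp

theorem one_eq_mono : (1 : MvPolynomial (Fin d) (ZMod 2)) = mono (0 : Fin d → ℕ) := by
  rw [mono_eq_prod]; simp

theorem isHomogeneous_mono (e : Fin d → ℕ) : (mono e).IsHomogeneous (∑ j, e j) := by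
  unfold mono
  apply isHomogeneous_monomial
  rw [Finsupp.degree_eq_sum]; rfl

/-! ### linear substitutions commute with the squares -/

/-- a polynomial fixed up to square by `Sq`: linear forms -/
def Lin (e : ℕ) (g : MvPolynomial (Fin e) (ZMod 2)) : Prop :=
  g.IsHomogeneous 1 ∧ Sq e g = g + g ^ 2

theorem lin_X (i : Fin d) : Lin d (X i) := by
  refine ⟨isHomogeneous_X _ _, ?_⟩
  unfold Sq
  rw [aeval_X]

theorem lin_sum (I : Finset (Fin d)) : Lin d (∑ i ∈ I, X i) := by
  refine ⟨IsHomogeneous.sum _ _ _ (fun i _ => isHomogeneous_X _ _), ?_⟩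
  rw [map_sum, CharTwo.sum_sq, ← Finset.sum_add_distrib]
  exact Finset.sum_congr rfl fun i _ => (lin_X i).2

theorem lin_zero : Lin d 0 := by
  simpa using lin_sum (∅ : Finset (Fin d))

theorem homogeneousComponent_aeval {d e : ℕ} (f : Fin d → MvPolynomial (Fin e) (ZMod 2))
    (hf : ∀ i, (f i).IsHomogeneous 1) (m : ℕ) (g : MvPolynomial (Fin d) (ZMod 2)) :
    homogeneousComponent m (aeval f g) = aeval f (homogeneousComponent m g) := by
  conv_lhs => rw [← sum_homogeneousComponent g]
  rw [map_sum, map_sum]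
  have h1 : ∀ k, homogeneousComponent m (aeval f (homogeneousComponent k g)) =
      if k = m then aeval f (homogeneousComponent k g) else 0 := by
    intro k
    have hk : (aeval f (homogeneousComponent k g)).IsHomogeneous (1 * k) :=
      (homogeneousComponent_isHomogeneous k g).aeval f hf
    rw [one_mul] at hk
    have := homogeneousComponent_of_mem (m := m) (n := k) hk
    rw [this]
    by_cases h : k = m
    · simp [h]
    · rw [if_neg (by tauto), if_neg h]
  simp_rw [h1]
  rw [Finset.sum_ite_eq']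
  by_cases hm : m ∈ Finset.range (g.totalDegree + 1)
  · rw [if_pos hm]
  · rw [if_neg hm]
    rw [homogeneousComponent_eq_zero m g (by simpa using hm), map_zero]

theorem sq_aeval {d e : ℕ} (f : Fin d → MvPolynomial (Fin e) (ZMod 2))
    (hf : ∀ i, Lin e (f i)) (g : MvPolynomial (Fin d) (ZMod 2)) :
    Sq e (aeval f g) = aeval f (Sq d g) := by
  have : (Sq e).comp (aeval f) = (aeval f).comp (Sq d) := by
    apply algHom_ext
    intro i
    rw [AlgHom.comp_apply, AlgHom.comp_apply, aeval_X]
    unfold Sq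
    rw [aeval_X, map_add, map_pow, aeval_X]
    exact (hf i).2
  exact DFunLike.congr_fun this g

theorem aeval_hits {d e : ℕ} (f : Fin d → MvPolynomial (Fin e) (ZMod 2))
    (hf : ∀ i, Lin e (f i)) {g : MvPolynomial (Fin d) (ZMod 2)} (hg : g ∈ hits d) :
    aeval f g ∈ hits e := by
  induction hg using Submodule.span_induction with
  | zero => rw [map_zero]; exact Submodule.zero_mem _
  | add x y _ _ hx hy => rw [map_add]; exact Submodule.add_mem _ hx hy
  | smul a x _ hx => rw [map_smul]; exact Submodule.smul_mem _ _ hx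
  | mem x hx =>
    obtain ⟨y, i, hi, rfl⟩ := hx
    rw [← homogeneousComponent_aeval f (fun i => (hf i).1), ← sq_aeval f hf]
    have hhom : (aeval f (mono y)).IsHomogeneous (∑ j, y j) := by
      have := (isHomogeneous_mono y).aeval f (fun i => (hf i).1)
      rwa [one_mul] at this
    have hm : aeval f (mono y) ∈ msp (fun z => ∑ j, z j = ∑ j, y j) := by
      rw [mem_msp_iff]
      intro m hm
      have := hhom hm
      have h2 : (Finsupp.weight (1 : Fin e → ℕ)) m = m.degree := by
        rw [Finsupp.degree_eq_weight_one]; rfl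
      rw [h2, Finsupp.degree_eq_sum] at this
      exact this
    generalize aeval f (mono y) = P at hm
    induction hm using Submodule.span_induction with
    | zero => rw [map_zero, map_zero]; exact Submodule.zero_mem _
    | add x y _ _ hx hy => rw [map_add, map_add]; exact Submodule.add_mem _ hx hy
    | smul a x _ hx => rw [map_smul, map_smul]; exact Submodule.smul_mem _ _ hx
    | mem x hx =>
      obtain ⟨z, rfl, hz⟩ := hx
      refine Submodule.subset_span ⟨z, i, hi, ?_⟩
      rw [hz]

end Pool.Agent.Helper60.Hit
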